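import Pool.Agent.K3h52.TP.Gauss
import Pool.Agent.K3h76.UC.Ext

set_option autoImplicit false

/-!
Bodies in a ball of sufficiently large volume.
-/

namespace Pool.Agent.K3h52.TP

open scoped RealInnerProductSpace Pointwise
open Module MeasureTheory Real Pool.Agent.K3h76.UC

variable {E : Type*} [NormedAddCommGroup E] [InnerProductSpace ℝ E] [FiniteDimensional ℝ E]

theorem ext_disj (A : Set E) (hn : 1 ≤ finrank ℝ E) : Disjoint (A.extremePoints ℝ) (interior A) := by
  haveI : Nontrivial E := Module.nontrivial_of_finrank_pos (R := ℝ) (by omega)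
  rw [Set.disjoint_left]
  intro x hx hxi
  obtain ⟨ε, hε, hball⟩ := Metric.isOpen_iff.1 isOpen_interior x hxi
  obtain ⟨v, hv⟩ := exists_ne (0 : E)
  have hvn : 0 < ‖v‖ := norm_pos_iff.mpr hv
  set w : E := (ε / (2 * ‖v‖)) • v with hw
  have hwn : ‖w‖ = ε / 2 := by
    rw [hw, norm_smul, Real.norm_of_nonneg (by positivity)]
    field_simp
  have hw0 : w ≠ 0 := by
    intro h
    rw [h, norm_zero] at hwn
    linarith
  have h1 : x + w ∈ A := by
    apply interior_subset
    apply hball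
    rw [Metric.mem_ball, dist_eq_norm, add_sub_cancel_left, hwn]
    linarith
  have h2 : x - w ∈ A := by
    apply interior_subset
    apply hball
    rw [Metric.mem_ball, dist_eq_norm, sub_sub_cancel_left, norm_neg, hwn]
    linarith
  have h3 : x ∈ openSegment ℝ (x + w) (x - w) :=
    ⟨1 / 2, 1 / 2, by norm_num, by norm_num, by norm_num, by
      rw [← smul_add, add_add_sub_cancel, ← two_smul ℝ x, smul_smul]
      norm_num⟩
  have h4 := hx.2 h1 h2 h3
  have h5 : w = 0 := by
    have := h4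
    simpa using this
  exact hw0 h5

variable [MeasurableSpace E] [BorelSpace E] (μ : Measure E) [μ.IsAddHaarMeasure]

/-- The criterion for the sum of `A` and a compact convex set `B`. -/
theorem crit_sum (A B : Set E) (hA : Convex ℝ A) (hAc : IsCompact A)
    (hAi : (interior A).Nonempty) (hB : Convex ℝ B) (hBc : IsCompact B) (hBn : B.Nonempty)
    (d : ℕ) (hd : finrank ℝ E = d) (hd1 : 1 ≤ d) (z : ℝ) (hz : 0 < z) (hz1 : z < 1)
    (φ : E → ℝ) (hφ : MemLp φ 2 μ) (m : ℝ) (hm : 0 < m)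
    (h : ∀ x ∈ A.extremePoints ℝ, m ≤ ∫ u in (1 - z) • A, φ (x + u) ∂μ)
    (p : ℝ) (hp : p * (μ.real ((1 - z) • A) * ∫ z, φ z ^ 2 ∂μ) ≤ m ^ 2)
    (k : ℕ) (hk : ⌊shell d 4 z⌋₊ ≤ k ∨
      (A.extremePoints ℝ).Finite ∧ (A.extremePoints ℝ).ncard ≤ k)
    (n : ℕ) (hn : (left p)^[n] k = 0) :
    ∃ T : Finset E, A + B ⊆ ⋃ t ∈ T, (fun x => t + x) '' interior (A + B) ∧ T.card ≤ n := by
  obtain ⟨T, hT, hcard⟩ := crit μ A hA hAc hAi (A.extremePoints ℝ) extremePoints_subset
    (ext_disj A (by omega)) z hz hz1 φ hφ m hm h p hp k (by rw [hd]; exact hk) n hn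
  obtain ⟨T', hT'card, hT'⟩ := cov_sum hA hAc hAi hB hBc hBn T hT
  exact ⟨T', hT', hT'card.trans hcard⟩

/-- The number of steps for the share `3 d log d (1 - z)ᵈ / 2ᵈ`, `z = 1 / (d log d)`. -/
theorem steps_thr (d : ℕ) (hd20 : 20 ≤ d) :
    ∃ z : ℝ, 0 < z ∧ z < 1 ∧ 0 < 3 * ((d : ℝ) * log d) * (1 - z) ^ d / 2 ^ d ∧
      ∃ n : ℕ, (left (3 * ((d : ℝ) * log d) * (1 - z) ^ d / 2 ^ d))^[n] ⌊shell d 4 z⌋₊ = 0 ∧
        n < 2 ^ d := by
  have hd20' : (20 : ℝ) ≤ d := by exact_mod_cast hd20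
  have hd0 : (0 : ℝ) < d := by linarith
  set l := log (d : ℝ) with hl
  have hl1 : 2.98 ≤ l := by
    have h1 := log_ge 20 (by norm_num) 149 50 (by norm_num) (by norm_num)
    have h2 : log 20 ≤ l := Real.log_le_log (by norm_num) hd20'
    have : ((149 : ℕ) : ℝ) / (50 : ℕ) = 2.98 := by norm_num
    linarith
  have hl0 : 0 < l := by linarith
  have hld : l ≤ 0.15 * d := by
    have h1 := Real.log_le_sub_one_of_pos (show 0 < (d : ℝ) / 20 by positivity)
    rw [Real.log_div hd0.ne' (by norm_num)] at h1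
    have h2 : log 20 ≤ 3 := by
      have h3 : (20 : ℝ) ≤ exp 3 := by
        have h4 := Real.exp_one_gt_d9
        have h5 : exp 3 = exp 1 ^ 3 := by rw [← Real.exp_nat_mul]; norm_num
        rw [h5]
        have h6 : (2.718 : ℝ) ≤ exp 1 := by linarith
        calc (20 : ℝ) ≤ 2.718 ^ 3 := by norm_num
          _ ≤ exp 1 ^ 3 := pow_le_pow_left₀ (by norm_num) h6 3
      rw [Real.log_le_iff_le_exp (by norm_num)]
      exact h3
    linarith
  set k := log l with hk
  have hk2 : k ≤ 0.3679 * l := by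
    have h1 := Real.log_le_sub_one_of_pos (show 0 < l / exp 1 by positivity)
    rw [Real.log_div hl0.ne' (exp_pos 1).ne', log_exp] at h1
    have h2 : l / exp 1 ≤ 0.3679 * l := by
      rw [div_le_iff₀ (exp_pos 1)]
      have := Real.exp_one_gt_d9
      nlinarith
    linarith
  have hk0 : 0 ≤ k := Real.log_nonneg (by linarith)
  set z := 1 / ((d : ℝ) * l) with hz
  have hz0 : 0 < z := by positivity
  have hdl : 59.6 ≤ (d : ℝ) * l := by nlinarith
  have hz1 : z ≤ 0.02 := by
    rw [hz, div_le_iff₀ (by positivity)]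
    linarith
  have hdz : (d : ℝ) * z = 1 / l := by
    rw [hz]; field_simp
  have h1z : 0 < 1 - z := by linarith
  set κ := 3 * ((d : ℝ) * l) * (1 - z) ^ d with hκ
  have hκ0 : 0 < κ := by positivity
  have hκ1 : 3 * (d : ℝ) * (l - 1) ≤ κ := by
    have h1 := one_add_mul_le_pow (a := -z) (by linarith) d
    have h2 : 1 - 1 / l ≤ (1 - z) ^ d := by
      rw [← hdz, sub_eq_add_neg 1 z]
      refine le_trans (le_of_eq ?_) h1
      ring
    calc 3 * (d : ℝ) * (l - 1) = 3 * (d * l) * (1 - 1 / l) := by field_simp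
      _ ≤ κ := mul_le_mul_of_nonneg_left h2 (by positivity)
  have h2d0 : (0 : ℝ) < 2 ^ d := by positivity
  set p := κ / 2 ^ d with hp
  have hp0 : 0 < p := by positivity
  have h2d : 100 * (d : ℝ) ^ 2 ≤ 2 ^ d := by
    have : ∀ m : ℕ, 20 ≤ m → 100 * m ^ 2 ≤ 2 ^ m := by
      intro m hm
      induction m, hm using Nat.le_induction with
      | base => norm_num
      | succ m hm ih =>
        have h1 : (m + 1) ^ 2 ≤ 2 * m ^ 2 := by nlinarith
        calc 100 * (m + 1) ^ 2 ≤ 100 * (2 * m ^ 2) := Nat.mul_le_mul_left _ h1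
          _ = 2 * (100 * m ^ 2) := by ring
          _ ≤ 2 * 2 ^ m := Nat.mul_le_mul_left _ ih
          _ = 2 ^ (m + 1) := by ring
    exact_mod_cast this d hd20
  have hκ2 : κ ≤ 3 * (d * l) := by
    rw [hκ]
    exact mul_le_of_le_one_right (by positivity) (pow_le_one₀ h1z.le (by linarith))
  have hκ3 : 3 * ((d : ℝ) * l) ≤ 0.45 * d ^ 2 := by nlinarith
  have hp1 : p ≤ 1 := by
    rw [hp, div_le_one h2d0]
    nlinarith
  set Λ := log (3 * d) + (d : ℝ) * (l + k + log 2) with hΛ
  have hlog2 : log 2 ≤ 0.6932 := by have := Real.log_two_lt_d9; linarith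
  have hlog20 : 0 ≤ log 2 := Real.log_nonneg (by norm_num)
  have hlog3 : 0 ≤ log (3 * (d : ℝ)) := Real.log_nonneg (by linarith)
  have hΛ0 : 0 ≤ Λ := by
    rw [hΛ]
    positivity
  have hshell : p * ⌊shell d 4 z⌋₊ ≤ exp Λ := by
    have hs0 : 0 ≤ shell d 4 z := by
      unfold shell
      refine mul_nonneg (by positivity) ?_
      rw [sub_nonneg]
      exact pow_le_pow_left₀ (by linarith) (by linarith) d
    have h1 : p * ⌊shell d 4 z⌋₊ ≤ p * shell d 4 z :=
      mul_le_mul_of_nonneg_left (Nat.floor_le hs0) hp0.le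
    refine h1.trans ?_
    have h2 : shell d 4 z ≤ (4 / z) ^ d * (d * z * (1 + z / 2) ^ d) := by
      unfold shell
      refine mul_le_mul_of_nonneg_left ?_ (by positivity)
      have := pow_diff_le d (z / 2) (by positivity) (by linarith)
      calc (1 + z / 2) ^ d - (1 - z / 2) ^ d ≤ 2 * d * (z / 2) * (1 + z / 2) ^ d := this
        _ = d * z * (1 + z / 2) ^ d := by ring
    have h3 : p * shell d 4 z ≤ 3 * (d * l) * (d * z) * (2 / z) ^ d := by
      calc p * shell d 4 z ≤ p * ((4 / z) ^ d * (d * z * (1 + z / 2) ^ d)) :=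
            mul_le_mul_of_nonneg_left h2 hp0.le
        _ = 3 * (d * l) * (d * z) * ((1 - z) * (4 / z) * (1 + z / 2) * (1 / 2)) ^ d := by
            rw [hp, hκ, mul_pow, mul_pow, mul_pow, one_div_pow]
            ring
        _ ≤ 3 * (d * l) * (d * z) * (2 / z) ^ d := by
            refine mul_le_mul_of_nonneg_left ?_ (by positivity)
            refine pow_le_pow_left₀ (by positivity) ?_ d
            have e1 : (1 - z) * (4 / z) * (1 + z / 2) * (1 / 2) =
                (2 / z) * ((1 - z) * (1 + z / 2)) := by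
              ring
            rw [e1]
            refine mul_le_of_le_one_right (by positivity) ?_
            have : (1 - z) * (1 + z / 2) = 1 - z / 2 - z * z / 2 := by ring
            rw [this]
            have : 0 < z * z := by positivity
            linarith
    refine h3.trans (le_of_eq ?_)
    have e2 : 2 / z = d * l * 2 := by
      rw [hz]; field_simp
    rw [e2, hdz]
    have e3 : (d : ℝ) * l * 2 = exp (l + k + log 2) := by
      rw [exp_add, exp_add, hl, exp_log hd0, hk, exp_log hl0, exp_log (by positivity)]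
    rw [e3, ← Real.exp_nat_mul, hΛ, exp_add, exp_log (by positivity)]
    congr 1
    field_simp
  obtain ⟨n, hn, hnle⟩ := exists_steps hp0 hp1 ⌊shell d 4 z⌋₊ Λ hΛ0 hshell
  refine ⟨z, hz0, by linarith, hp0, n, hn, ?_⟩
  have hlog3' : log (3 * (d : ℝ)) ≤ 1.1 + l := by
    rw [Real.log_mul (by norm_num) hd0.ne']
    have : log 3 ≤ 1.1 := by
      have h4 := Real.exp_one_gt_d9
      have h6 : (2.718 : ℝ) ≤ exp 1 := by linarith
      have h5 : (3 : ℝ) ^ 10 ≤ exp 11 := by
        have h7 : exp 11 = exp 1 ^ 11 := by rw [← Real.exp_nat_mul]; norm_num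
        rw [h7]
        calc (3 : ℝ) ^ 10 ≤ 2.718 ^ 11 := by norm_num
          _ ≤ exp 1 ^ 11 := pow_le_pow_left₀ (by norm_num) h6 11
      have h8 := Real.log_le_log (by norm_num) h5
      rw [Real.log_pow, log_exp] at h8
      push_cast at h8
      linarith
    linarith
  have hfin : 1 + (1 + Λ) / p < 2 ^ d := by
    have h5 : (1 + Λ) / p = (1 + Λ) * 2 ^ d / κ := by rw [hp]; field_simp
    have h6 : (1 + Λ) + 0.1 ≤ κ := by
      refine le_trans ?_ hκ1
      rw [hΛ]
      have h10 : (d : ℝ) * (l + k + log 2) ≤ d * (l + 0.3679 * l + 0.6932) :=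
        mul_le_mul_of_nonneg_left (by linarith) hd0.le
      have h11 : (d : ℝ) * (l + 0.3679 * l + 0.6932) + 2.2 + l ≤ 3 * d * (l - 1) := by
        have h12 : 2.2 + l ≤ 0.27 * (d : ℝ) := by linarith
        have h13 : (d : ℝ) * 4.8 ≤ d * (1.62 * l) := by
          refine mul_le_mul_of_nonneg_left ?_ hd0.le
          linarith
        nlinarith
      linarith
    have h7 : (1 + Λ) * 2 ^ d / κ ≤ 2 ^ d - 0.1 * 2 ^ d / κ := by
      rw [le_sub_iff_add_le, ← add_div, div_le_iff₀ hκ0, ← add_mul, mul_comm (2 ^ d) κ]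
      exact mul_le_mul_of_nonneg_right h6 h2d0.le
    have h8 : 1 < 0.1 * 2 ^ d / κ := by
      rw [lt_div_iff₀ hκ0, one_mul]
      nlinarith
    rw [h5]
    linarith
  have h9 : (n : ℝ) < 2 ^ d := lt_of_le_of_lt hnle hfin
  exact_mod_cast h9

/-- Bodies in a ball. -/
theorem ball_thr2 (A B : Set E) (hA : Convex ℝ A) (hAc : IsCompact A)
    (hAi : (interior A).Nonempty) (hB : Convex ℝ B) (hBc : IsCompact B) (hBn : B.Nonempty)
    (d : ℕ) (hd : finrank ℝ E = d) (hd20 : 20 ≤ d) (c g : E) (R ρ : ℝ) (hρ : 0 < ρ)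
    (hAR : A ⊆ Metric.closedBall c R)
    (hg : ∫ u in A, u = (volume : Measure E).real A • g)
    (hm : R ^ 2 * (volume : Measure E).real A + ∫ u in A, ‖u - g‖ ^ 2 ≤
      ρ ^ 2 * (volume : Measure E).real A)
    (hvol : 3 * (d * log d) * (π * exp 1 * ρ ^ 2 / (2 * d)) ^ (d / 2 : ℝ) ≤
      (volume : Measure E).real A) :
    ∃ T : Finset E, A + B ⊆ ⋃ t ∈ T, (fun x => t + x) '' interior (A + B) ∧
      T.card < 2 ^ d := by
  have hd0 : (0 : ℝ) < d := by exact_mod_cast (by omega : 0 < d)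
  set v := (volume : Measure E).real A with hv
  have hv0 : 0 < v := real_pos' volume hAc hAi
  obtain ⟨z, hz0, hz1, hp0, n, hn, hn2⟩ := steps_thr d hd20
  set p := 3 * ((d : ℝ) * log d) * (1 - z) ^ d / 2 ^ d with hp
  have h1z : 0 < 1 - z := by linarith
  have h2d0 : (0 : ℝ) < 2 ^ d := by positivity
  obtain ⟨hφ, hφm, hφ2⟩ := gauss_data A hAc c g R ρ hρ hAR hg hm z hz0 hz1 d hd (by omega)
  set φ : E → ℝ := fun y : E => exp (-(d / (4 * ρ ^ 2)) * ‖y - (c + (1 - z) • g)‖ ^ 2) with hφd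
  have hpcond : p * ((volume : Measure E).real ((1 - z) • A) * ∫ y, φ y ^ 2) ≤
      ((1 - z) ^ d * v * exp (-(d / 4))) ^ 2 := by
    have hvl : (volume : Measure E).real ((1 - z) • A) = (1 - z) ^ d * v := by
      rw [measureReal_def, Measure.addHaar_smul, hd, abs_of_nonneg (by positivity),
        ENNReal.toReal_mul, ENNReal.toReal_ofReal (by positivity)]
      rfl
    have e0 : ∫ y, φ y ^ 2 = (2 * π * ρ ^ 2 / d) ^ (d / 2 : ℝ) := hφ2
    rw [hvl, e0]
    set Q := (2 * π * ρ ^ 2 / d) ^ (d / 2 : ℝ) with hQ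
    -- relation of the constants
    have hQ1 : (π * exp 1 * ρ ^ 2 / (2 * d)) ^ (d / 2 : ℝ) = Q * exp (d / 2) / 2 ^ d := by
      have e1 : π * exp 1 * ρ ^ 2 / (2 * d) = (2 * π * ρ ^ 2 / d) * (exp 1 / 4) := by
        field_simp
        ring
      rw [e1, Real.mul_rpow (by positivity) (by positivity), hQ,
        Real.div_rpow (exp_pos 1).le (by norm_num), ← Real.exp_mul, one_mul]
      have e2 : (4 : ℝ) ^ (d / 2 : ℝ) = 2 ^ d := by
        have : (4 : ℝ) = 2 ^ (2 : ℝ) := by norm_num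
        rw [this, ← Real.rpow_mul (by norm_num)]
        have e3 : (2 : ℝ) * (d / 2) = (d : ℕ) := by ring
        rw [e3, Real.rpow_natCast]
      rw [e2]
      ring
    rw [hQ1] at hvol
    have e4 : exp (-(d / 4 : ℝ)) ^ 2 = (exp (d / 2))⁻¹ := by
      rw [← Real.exp_nat_mul, ← Real.exp_neg]
      congr 1
      push_cast
      ring
    rw [mul_pow, e4]
    have hQ0 : 0 < Q := Real.rpow_pos_of_pos (by positivity) _
    have h3 : p * Q ≤ (1 - z) ^ d * v * (exp (d / 2))⁻¹ := by
      rw [← div_eq_mul_inv, le_div_iff₀ (exp_pos _)]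
      calc p * Q * exp (d / 2)
          = (1 - z) ^ d * (3 * (d * log d) * (Q * exp (d / 2) / 2 ^ d)) := by rw [hp]; ring
        _ ≤ (1 - z) ^ d * v := mul_le_mul_of_nonneg_left hvol (by positivity)
    calc p * ((1 - z) ^ d * v * Q) = (1 - z) ^ d * v * (p * Q) := by ring
      _ ≤ (1 - z) ^ d * v * ((1 - z) ^ d * v * (exp (d / 2))⁻¹) :=
          mul_le_mul_of_nonneg_left h3 (by positivity)
      _ = ((1 - z) ^ d * v) ^ 2 * (exp (d / 2))⁻¹ := by ring
  obtain ⟨T, hT, hcard⟩ := crit_sum volume A B hA hAc hAi hB hBc hBn d hd (by omega) z hz0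
    hz1 φ hφ _ (by positivity) (fun x hx => hφm x (extremePoints_subset hx)) p hpcond
    ⌊shell d 4 z⌋₊ (Or.inl le_rfl) n hn
  exact ⟨T, hT, lt_of_le_of_lt hcard hn2⟩

/-- Bodies in a ball, with the radius of the ball only. -/
theorem ball_thr3 (A B : Set E) (hA : Convex ℝ A) (hAc : IsCompact A)
    (hAi : (interior A).Nonempty) (hB : Convex ℝ B) (hBc : IsCompact B) (hBn : B.Nonempty)
    (d : ℕ) (hd : finrank ℝ E = d) (hd20 : 20 ≤ d) (c : E) (R : ℝ)
    (hAR : A ⊆ Metric.closedBall c R)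
    (hvol : 3 * (d * log d) * (π * exp 1 * R ^ 2 / d) ^ (d / 2 : ℝ) ≤
      (volume : Measure E).real A) :
    ∃ T : Finset E, A + B ⊆ ⋃ t ∈ T, (fun x => t + x) '' interior (A + B) ∧
      T.card < 2 ^ d := by
  haveI : Nontrivial E := Module.nontrivial_of_finrank_pos (R := ℝ) (by omega)
  have hd0 : (0 : ℝ) < d := by exact_mod_cast (by omega : 0 < d)
  have hv0 : 0 < (volume : Measure E).real A := real_pos' volume hAc hAi
  have hAf : (volume : Measure E) A ≠ ⊤ := hAc.measure_lt_top.ne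
  have hAm : MeasurableSet A := hAc.isClosed.measurableSet
  have hR : 0 < R := by
    by_contra hcon
    push Not at hcon
    have h1 : A ⊆ {c} := by
      intro x hx
      have h2 := hAR hx
      rw [Metric.mem_closedBall] at h2
      exact dist_le_zero.1 (h2.trans hcon)
    have h2 : (volume : Measure E).real A ≤ 0 := by
      have h3 : (volume : Measure E) A = 0 := measure_mono_null h1 (measure_singleton c)
      rw [measureReal_def, h3]
      simp
    linarith
  set g : E := ((volume : Measure E).real A)⁻¹ • ∫ u in A, u with hg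
  have hg' : ∫ u in A, u = (volume : Measure E).real A • g := by
    rw [hg, smul_smul, mul_inv_cancel₀ hv0.ne', one_smul]
  have hs2 : Real.sqrt 2 ^ 2 = 2 := Real.sq_sqrt two_pos.le
  have hs0 : 0 < Real.sqrt 2 := Real.sqrt_pos.mpr two_pos
  have h3 : ∫ u in A, ‖u - g‖ ^ 2 ≤ R ^ 2 * (volume : Measure E).real A := by
    have h4 := mean_sq (volume : Measure E) A hAc g c g hg'
    have h5 : ∫ u in A, ‖g + u - (c + g)‖ ^ 2 ≤ ∫ _ in A, R ^ 2 ∂(volume : Measure E) := by
      refine setIntegral_mono_on ?_ (integrableOn_const hAf) hAm ?_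
      · exact ContinuousOn.integrableOn_compact hAc (by fun_prop)
      · intro u hu
        have h6 : g + u - (c + g) = u - c := by abel
        rw [h6]
        have h7 := hAR hu
        rw [Metric.mem_closedBall, dist_eq_norm] at h7
        exact pow_le_pow_left₀ (norm_nonneg _) h7 2
    rw [setIntegral_const, smul_eq_mul] at h5
    have h8 : 0 ≤ ‖g - c‖ ^ 2 * (volume : Measure E).real A := by positivity
    linarith
  refine ball_thr2 A B hA hAc hAi hB hBc hBn d hd hd20 c g R (Real.sqrt 2 * R) (by positivity)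
    hAR hg' (by rw [mul_pow, hs2]; linarith) ?_
  have e : π * exp 1 * (Real.sqrt 2 * R) ^ 2 / (2 * d) = π * exp 1 * R ^ 2 / d := by
    rw [mul_pow, hs2]
    field_simp
  rw [e]
  exact hvol

end Pool.Agent.K3h52.TP
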