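import Pool.Agent.K3h52.TP.FinExt

set_option autoImplicit false

/-!
The general bounds for all `d ≥ 3`.
-/

namespace Pool.Agent.K3h52.TP

open scoped RealInnerProductSpace Pointwise
open Module MeasureTheory Real

variable {E : Type*} [NormedAddCommGroup E] [InnerProductSpace ℝ E] [FiniteDimensional ℝ E]

theorem loglog_ge (l c : ℝ) (hc : 0 < c) (h : c ≤ l) : 1 - 1 / c ≤ log l := by
  have h1 := Real.log_le_sub_one_of_pos (show 0 < 1 / c by positivity)
  rw [one_div, Real.log_inv] at h1
  have h2 : log c ≤ log l := Real.log_le_log hc h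
  rw [one_div]
  linarith

/-- lower bound for `log d + log log d` -/
theorem sum_ge (n : ℝ) (hn : 0 < n) (a b : ℕ) (ha : 0 < a) (hb : 0 < b)
    (h : (2.7182818286 : ℝ) ^ a ≤ n ^ b) :
    (a : ℝ) / b + (1 - (b : ℝ) / a) ≤ log n + log (log n) := by
  have h1 := log_ge n hn a b hb h
  have ha' : (0 : ℝ) < a := by exact_mod_cast ha
  have hb' : (0 : ℝ) < b := by exact_mod_cast hb
  have h2 := loglog_ge (log n) ((a : ℝ) / b) (by positivity) h1
  rw [one_div_div] at h2
  linarith

/-- All bodies, `d ≥ 3`. -/
theorem all_gen (A B : Set E) (hA : Convex ℝ A) (hAc : IsCompact A)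
    (hAi : (interior A).Nonempty) (hB : Convex ℝ B) (hBc : IsCompact B) (hBn : B.Nonempty)
    (d : ℕ) (hd : finrank ℝ E = d) (hd3 : 3 ≤ d) :
    ∃ T : Finset E, A + B ⊆ ⋃ t ∈ T, (fun x => t + x) '' interior (A + B) ∧
      (T.card : ℝ) ≤ 2 ^ d * (d * log d + d * log (log d) + 2 * d) := by
  rcases Nat.lt_or_ge 8 d with h9 | h9
  · obtain ⟨z, hz, hz1, n, hn, hnle⟩ := steps_bound d h9 4 2 (by norm_num) (by norm_num) (by
      have e : (4 : ℝ) / 2 = 2 := by norm_num
      rw [e]
      have := Real.log_two_lt_d9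
      norm_num
      linarith)
    obtain ⟨T, hT, hcard⟩ := all_sum A B hA hAc hAi hB hBc hBn d hd (by omega) z hz hz1 _
      (Or.inl le_rfl) n hn
    exact ⟨T, hT, le_trans (by exact_mod_cast hcard) hnle⟩
  · have key : ∀ n : ℕ, (∃ T : Finset E, A + B ⊆ ⋃ t ∈ T, (fun x => t + x) '' interior (A + B) ∧
        T.card ≤ n) → (n : ℝ) ≤ 2 ^ d * (d * log d + d * log (log d) + 2 * d) →
        ∃ T : Finset E, A + B ⊆ ⋃ t ∈ T, (fun x => t + x) '' interior (A + B) ∧
        (T.card : ℝ) ≤ 2 ^ d * (d * log d + d * log (log d) + 2 * d) := by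
      rintro n ⟨T, hT, hcard⟩ hn
      exact ⟨T, hT, le_trans (by exact_mod_cast hcard) hn⟩
    have e0 : (2 : ℝ) ^ d * (d * log d + d * log (log d) + 2 * d) =
        2 ^ d * (d * ((log d + log (log d)) + 2)) := by ring
    rw [e0] at key ⊢
    interval_cases d
    · have h := sum_ge 3 (by norm_num) 1 1 (by norm_num) (by norm_num) (by norm_num)
      refine key 71 (num_sum A B hA hAc hAi hB hBc hBn 3 13 100 71 (by norm_num) (by norm_num)
        (by norm_num) hd v3) ?_
      push_cast at h ⊢
      norm_num at h ⊢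
      linarith
    · have h := sum_ge 4 (by norm_num) 4 3 (by norm_num) (by norm_num) (by norm_num)
      refine key 220 (num_sum A B hA hAc hAi hB hBc hBn 4 115 1000 220 (by norm_num)
        (by norm_num) (by norm_num) hd v4) ?_
      push_cast at h ⊢
      norm_num at h ⊢
      linarith
    · have h := sum_ge 5 (by norm_num) 3 2 (by norm_num) (by norm_num) (by norm_num)
      refine key 604 (num_sum A B hA hAc hAi hB hBc hBn 5 1 10 604 (by norm_num)
        (by norm_num) (by norm_num) hd v5) ?_
      push_cast at h ⊢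
      norm_num at h ⊢
      linarith
    · have h := sum_ge 6 (by norm_num) 17 10 (by norm_num) (by norm_num) (by norm_num)
      refine key 1552 (num_sum A B hA hAc hAi hB hBc hBn 6 2 25 1552 (by norm_num)
        (by norm_num) (by norm_num) hd v6) ?_
      push_cast at h ⊢
      norm_num at h ⊢
      linarith
    · have h := sum_ge 7 (by norm_num) 19 10 (by norm_num) (by norm_num) (by norm_num)
      refine key 3814 (num_sum A B hA hAc hAi hB hBc hBn 7 17 250 3814 (by norm_num)
        (by norm_num) (by norm_num) hd v7) ?_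
      push_cast at h ⊢
      norm_num at h ⊢
      linarith
    · have h := sum_ge 8 (by norm_num) 51 25 (by norm_num) (by norm_num) (by norm_num)
      refine key 9087 (num_sum A B hA hAc hAi hB hBc hBn 8 59 1000 9087 (by norm_num)
        (by norm_num) (by norm_num) hd v8) ?_
      push_cast at h ⊢
      norm_num at h ⊢
      linarith

/-- Bodies with a centre of symmetry, `d ≥ 3`. -/
theorem symm_gen (A B : Set E) (hA : Convex ℝ A) (hAc : IsCompact A)
    (hAi : (interior A).Nonempty) (o : E) (ho : ∀ x ∈ A, (2 : ℝ) • o - x ∈ A)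
    (hB : Convex ℝ B) (hBc : IsCompact B) (hBn : B.Nonempty)
    (d : ℕ) (hd : finrank ℝ E = d) (hd3 : 3 ≤ d) :
    ∃ T : Finset E, A + B ⊆ ⋃ t ∈ T, (fun x => t + x) '' interior (A + B) ∧
      (T.card : ℝ) ≤ 2 ^ d * (d * log d + d * log (log d) + d) := by
  rcases Nat.lt_or_ge 8 d with h9 | h9
  · obtain ⟨z, hz, hz1, n, hn, hnle⟩ := steps_bound d h9 2 1 (by norm_num) (by norm_num) (by
      norm_num)
    obtain ⟨T, hT, hcard⟩ := all_sum_symm A B hA hAc hAi o ho hB hBc hBn d hd (by omega) z hz hz1 _
      (Or.inl le_rfl) n hn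
    rw [one_mul] at hnle
    exact ⟨T, hT, le_trans (by exact_mod_cast hcard) hnle⟩
  · have key : ∀ n : ℕ, (∃ T : Finset E, A + B ⊆ ⋃ t ∈ T, (fun x => t + x) '' interior (A + B) ∧
        T.card ≤ n) → (n : ℝ) ≤ 2 ^ d * (d * log d + d * log (log d) + d) →
        ∃ T : Finset E, A + B ⊆ ⋃ t ∈ T, (fun x => t + x) '' interior (A + B) ∧
        (T.card : ℝ) ≤ 2 ^ d * (d * log d + d * log (log d) + d) := by
      rintro n ⟨T, hT, hcard⟩ hn
      exact ⟨T, hT, le_trans (by exact_mod_cast hcard) hn⟩
    have e0 : (2 : ℝ) ^ d * (d * log d + d * log (log d) + d) =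
        2 ^ d * (d * ((log d + log (log d)) + 1)) := by ring
    rw [e0] at key ⊢
    interval_cases d
    · have h := sum_ge 3 (by norm_num) 1 1 (by norm_num) (by norm_num) (by norm_num)
      refine key 48 (num_sum_symm A B hA hAc hAi o ho hB hBc hBn 3 257 1000 48 (by norm_num)
        (by norm_num) (by norm_num) hd s3) ?_
      push_cast at h ⊢
      norm_num at h ⊢
      linarith
    · have h := sum_ge 4 (by norm_num) 4 3 (by norm_num) (by norm_num) (by norm_num)
      refine key 159 (num_sum_symm A B hA hAc hAi o ho hB hBc hBn 4 167 1000 159 (by norm_num)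
        (by norm_num) (by norm_num) hd s4) ?_
      push_cast at h ⊢
      norm_num at h ⊢
      linarith
    · have h := sum_ge 5 (by norm_num) 3 2 (by norm_num) (by norm_num) (by norm_num)
      refine key 452 (num_sum_symm A B hA hAc hAi o ho hB hBc hBn 5 18 125 452 (by norm_num)
        (by norm_num) (by norm_num) hd s5) ?_
      push_cast at h ⊢
      norm_num at h ⊢
      linarith
    · have h := sum_ge 6 (by norm_num) 17 10 (by norm_num) (by norm_num) (by norm_num)
      refine key 1190 (num_sum_symm A B hA hAc hAi o ho hB hBc hBn 6 113 1000 1190 (by norm_num)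
        (by norm_num) (by norm_num) hd s6) ?_
      push_cast at h ⊢
      norm_num at h ⊢
      linarith
    · have h := sum_ge 7 (by norm_num) 19 10 (by norm_num) (by norm_num) (by norm_num)
      refine key 2976 (num_sum_symm A B hA hAc hAi o ho hB hBc hBn 7 12 125 2976 (by norm_num)
        (by norm_num) (by norm_num) hd s7) ?_
      push_cast at h ⊢
      norm_num at h ⊢
      linarith
    · have h := sum_ge 8 (by norm_num) 51 25 (by norm_num) (by norm_num) (by norm_num)
      refine key 7188 (num_sum_symm A B hA hAc hAi o ho hB hBc hBn 8 807 10000 7188 (by norm_num)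
        (by norm_num) (by norm_num) hd s8) ?_
      push_cast at h ⊢
      norm_num at h ⊢
      linarith

end Pool.Agent.K3h52.TP
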