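import Pool.Agent.K3h52.TP.Crit

set_option autoImplicit false

/-!
All convex bodies.
-/

namespace Pool.Agent.K3h52.TP

open MeasureTheory Module
open scoped Pointwise ENNReal
open Pool.Agent.H2R2.Cov Pool.Agent.K3h76.UC

variable {E : Type*} [NormedAddCommGroup E] [NormedSpace ℝ E] [FiniteDimensional ℝ E]
  [MeasurableSpace E] [BorelSpace E] (μ : Measure E) [μ.IsAddHaarMeasure]

/-- The data of the criterion for the indicator function of `(2 - z) A`. -/
theorem all_data (A : Set E) (hA : Convex ℝ A) (hAc : IsCompact A) (hAi : (interior A).Nonempty)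
    (z : ℝ) (hz : 0 < z) (hz1 : z < 1) :
    MemLp (((2 - z) • A).indicator (fun _ => (1 : ℝ))) 2 μ ∧
    0 < μ.real ((1 - z) • A) ∧
    (∀ x ∈ A, μ.real ((1 - z) • A) ≤
      ∫ u in (1 - z) • A, ((2 - z) • A).indicator (fun _ => (1 : ℝ)) (x + u) ∂μ) ∧
    ((1 - z) / (2 - z)) ^ finrank ℝ E * (μ.real ((1 - z) • A) *
      ∫ y, ((2 - z) • A).indicator (fun _ => (1 : ℝ)) y ^ 2 ∂μ) ≤ μ.real ((1 - z) • A) ^ 2 := by
  set d := finrank ℝ E with hd
  have hAr := real_pos' μ hAc hAi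
  have h1z : 0 < 1 - z := by linarith
  have h2z : 0 < 2 - z := by linarith
  have hM : MeasurableSet ((2 - z) • A) := (hAc.smul _).isClosed.measurableSet
  have hMf : μ ((2 - z) • A) ≠ ⊤ := (hAc.smul _).measure_lt_top.ne
  have hL : MeasurableSet ((1 - z) • A) := (hAc.smul _).isClosed.measurableSet
  have hLf : μ ((1 - z) • A) ≠ ⊤ := (hAc.smul _).measure_lt_top.ne
  have hvol : ∀ k : ℝ, 0 < k → μ.real (k • A) = k ^ d * μ.real A := by
    intro k hk
    rw [measureReal_def, Measure.addHaar_smul, abs_of_nonneg (by positivity), ENNReal.toReal_mul,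
      ENNReal.toReal_ofReal (by positivity)]
    rfl
  refine ⟨memLp_indicator_const 2 hM (1 : ℝ) (Or.inr hMf), ?_, ?_, ?_⟩
  · rw [hvol _ h1z]; positivity
  · intro x hx
    have h1 : ∫ u in (1 - z) • A, ((2 - z) • A).indicator (fun _ => (1 : ℝ)) (x + u) ∂μ =
        ∫ u in (1 - z) • A, (1 : ℝ) ∂μ := by
      refine setIntegral_congr_fun hL ?_
      intro u hu
      obtain ⟨a, ha, rfl⟩ := hu
      simp only
      rw [Set.indicator_of_mem]
      refine ⟨(1 / (2 - z)) • x + ((1 - z) / (2 - z)) • a, ?_, ?_⟩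
      · refine hA hx ha (by positivity) (by positivity) ?_
        field_simp
        ring
      · simp only [smul_add, smul_smul]
        rw [mul_one_div_cancel h2z.ne', one_smul, mul_div_cancel₀ _ h2z.ne']
    rw [h1, setIntegral_const, smul_eq_mul, mul_one]
  · have h2 : ∫ y, ((2 - z) • A).indicator (fun _ => (1 : ℝ)) y ^ 2 ∂μ = μ.real ((2 - z) • A) := by
      have h3 : (fun y => ((2 - z) • A).indicator (fun _ => (1 : ℝ)) y ^ 2) =
          ((2 - z) • A).indicator (fun _ => (1 : ℝ)) := by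
        ext y
        by_cases hy : y ∈ (2 - z) • A
        · rw [Set.indicator_of_mem hy]; norm_num
        · rw [Set.indicator_of_notMem hy]; norm_num
      rw [h3, integral_indicator_const _ hM]
      simp
    rw [h2, hvol _ h1z, hvol _ h2z]
    refine le_of_eq ?_
    rw [div_pow]
    field_simp

/-- Every convex body. -/
theorem all_cov (A : Set E) (hA : Convex ℝ A) (hAc : IsCompact A) (hAi : (interior A).Nonempty)
    (X : Set E) (hXA : X ⊆ A) (hXi : Disjoint X (interior A)) (z : ℝ) (hz : 0 < z) (hz1 : z < 1)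
    (k : ℕ) (hk : ⌊shell (finrank ℝ E) 4 z⌋₊ ≤ k ∨ X.Finite ∧ X.ncard ≤ k)
    (n : ℕ) (hn : (left (((1 - z) / (2 - z)) ^ finrank ℝ E))^[n] k = 0) :
    ∃ T : Finset E, X ⊆ ⋃ t ∈ T, (fun x => t + x) '' interior A ∧ T.card ≤ n := by
  borelize E
  obtain ⟨h1, h2, h3, h4⟩ := all_data (Measure.addHaar : Measure E) A hA hAc hAi z hz hz1
  exact crit Measure.addHaar A hA hAc hAi X hXA hXi z hz hz1 _ h1 _ h2 (fun x hx => h3 x (hXA hx))
    _ h4 k hk n hn

/-- Every convex body with a centre of symmetry. -/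
theorem all_cov_symm (A : Set E) (hA : Convex ℝ A) (hAc : IsCompact A)
    (hAi : (interior A).Nonempty) (o : E) (ho : ∀ x ∈ A, (2 : ℝ) • o - x ∈ A)
    (X : Set E) (hXA : X ⊆ A) (hXi : Disjoint X (interior A)) (z : ℝ) (hz : 0 < z) (hz1 : z < 1)
    (k : ℕ) (hk : ⌊shell (finrank ℝ E) 2 z⌋₊ ≤ k ∨ X.Finite ∧ X.ncard ≤ k)
    (n : ℕ) (hn : (left (((1 - z) / (2 - z)) ^ finrank ℝ E))^[n] k = 0) :
    ∃ T : Finset E, X ⊆ ⋃ t ∈ T, (fun x => t + x) '' interior A ∧ T.card ≤ n := by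
  borelize E
  obtain ⟨h1, h2, h3, h4⟩ := all_data (Measure.addHaar : Measure E) A hA hAc hAi z hz hz1
  exact crit_symm Measure.addHaar A hA hAc hAi o ho X hXA hXi z hz hz1 _ h1 _ h2
    (fun x hx => h3 x (hXA hx)) _ h4 k hk n hn

/-! ### Numbers -/

/-- The greedy step with rational share. -/
def nf (N D k : ℕ) : ℕ := k * N / D

theorem left_eq_nf (N D : ℕ) (p : ℝ) (hp : 1 - p = (N : ℝ) / D) (n k : ℕ) :
    (left p)^[n] k = (nf N D)^[n] k := by
  have h : left p = nf N D := by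
    funext j
    unfold left nf
    rw [hp]
    have : (N : ℝ) / D * j = ((j * N : ℕ) : ℝ) / (D : ℝ) := by push_cast; ring
    rw [this, Nat.floor_div_eq_div]
  rw [h]

theorem nf_data (d a b : ℕ) (hab : a < b) :
    1 - ((1 - (a : ℝ) / b) / (2 - (a : ℝ) / b)) ^ d =
      (((2 * b - a) ^ d - (b - a) ^ d : ℕ) : ℝ) / (((2 * b - a) ^ d : ℕ) : ℝ) := by
  have hb : (0 : ℝ) < b := by exact_mod_cast (by omega : 0 < b)
  have hab' : (a : ℝ) < b := by exact_mod_cast hab
  have h1 : (b - a) ^ d ≤ (2 * b - a) ^ d := Nat.pow_le_pow_left (by omega) d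
  rw [Nat.cast_sub h1]
  push_cast [Nat.cast_sub (show a ≤ 2 * b by omega), Nat.cast_sub hab.le]
  have h3 : (0 : ℝ) < 2 * b - a := by linarith
  have h2 : (1 - (a : ℝ) / b) / (2 - (a : ℝ) / b) = (b - a) / (2 * b - a) := by
    have h4 : (2 - (a : ℝ) / b) = (2 * b - a) / b := by field_simp
    have h5 : (1 - (a : ℝ) / b) = (b - a) / b := by field_simp
    rw [h4, h5]
    field_simp
  rw [h2, div_pow, sub_div, div_self (pow_pos h3 d).ne']

theorem shell_floor (d k a b : ℕ) (ha : 0 < a) (hab : a < b) :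
    ⌊shell d (2 * k) ((a : ℝ) / b)⌋₊ = k ^ d * ((2 * b + a) ^ d - (2 * b - a) ^ d) / a ^ d := by
  have hb : (0 : ℝ) < b := by exact_mod_cast (by omega : 0 < b)
  have ha' : (0 : ℝ) < a := by exact_mod_cast ha
  have h1 : (2 * b - a) ^ d ≤ (2 * b + a) ^ d := Nat.pow_le_pow_left (by omega) d
  have h2 : shell d (2 * k) ((a : ℝ) / b) =
      ((k ^ d * ((2 * b + a) ^ d - (2 * b - a) ^ d) : ℕ) : ℝ) / ((a ^ d : ℕ) : ℝ) := by
    unfold shell
    push_cast [Nat.cast_sub h1, Nat.cast_sub (show a ≤ 2 * b by omega)]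
    have e1 : (1 + (a : ℝ) / b / 2) = (2 * b + a) / (2 * b) := by field_simp
    have e2 : (1 - (a : ℝ) / b / 2) = (2 * b - a) / (2 * b) := by field_simp
    have e3 : 2 * (k : ℝ) / (a / b) = k * (2 * b) / a := by field_simp
    rw [e1, e2, e3, div_pow, div_pow, div_pow, mul_pow]
    field_simp
  rw [h2, Nat.floor_div_eq_div]

/-- Numerical form. -/
theorem num_cov (A : Set E) (hA : Convex ℝ A) (hAc : IsCompact A) (hAi : (interior A).Nonempty)
    (X : Set E) (hXA : X ⊆ A) (hXi : Disjoint X (interior A)) (d a b n : ℕ) (ha : 0 < a)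
    (hab : a < b) (hd : finrank ℝ E = d)
    (hn : (nf ((2 * b - a) ^ d - (b - a) ^ d) ((2 * b - a) ^ d))^[n]
      (2 ^ d * ((2 * b + a) ^ d - (2 * b - a) ^ d) / a ^ d) = 0) :
    ∃ T : Finset E, X ⊆ ⋃ t ∈ T, (fun x => t + x) '' interior A ∧ T.card ≤ n := by
  have hb : (0 : ℝ) < b := by exact_mod_cast (by omega : 0 < b)
  have ha' : (0 : ℝ) < a := by exact_mod_cast ha
  have hab' : (a : ℝ) < b := by exact_mod_cast hab
  refine all_cov A hA hAc hAi X hXA hXi ((a : ℝ) / b) (by positivity)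
    (by rw [div_lt_one hb]; exact hab') _ (Or.inl le_rfl) n ?_
  rw [hd, left_eq_nf _ _ _ (nf_data d a b hab)]
  have h2 := shell_floor d 2 a b ha hab
  have e : (2 * ((2 : ℕ) : ℝ)) = 4 := by norm_num
  rw [e] at h2
  rw [h2]
  exact hn

theorem num_cov_symm (A : Set E) (hA : Convex ℝ A) (hAc : IsCompact A)
    (hAi : (interior A).Nonempty) (o : E) (ho : ∀ x ∈ A, (2 : ℝ) • o - x ∈ A)
    (X : Set E) (hXA : X ⊆ A) (hXi : Disjoint X (interior A)) (d a b n : ℕ) (ha : 0 < a)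
    (hab : a < b) (hd : finrank ℝ E = d)
    (hn : (nf ((2 * b - a) ^ d - (b - a) ^ d) ((2 * b - a) ^ d))^[n]
      (1 ^ d * ((2 * b + a) ^ d - (2 * b - a) ^ d) / a ^ d) = 0) :
    ∃ T : Finset E, X ⊆ ⋃ t ∈ T, (fun x => t + x) '' interior A ∧ T.card ≤ n := by
  have hb : (0 : ℝ) < b := by exact_mod_cast (by omega : 0 < b)
  have ha' : (0 : ℝ) < a := by exact_mod_cast ha
  have hab' : (a : ℝ) < b := by exact_mod_cast hab
  refine all_cov_symm A hA hAc hAi o ho X hXA hXi ((a : ℝ) / b) (by positivity)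
    (by rw [div_lt_one hb]; exact hab') _ (Or.inl le_rfl) n ?_
  rw [hd, left_eq_nf _ _ _ (nf_data d a b hab)]
  have h2 := shell_floor d 1 a b ha hab
  have e : (2 * ((1 : ℕ) : ℝ)) = 2 := by norm_num
  rw [e] at h2
  rw [h2]
  exact hn

end Pool.Agent.K3h52.TP
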