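import Pool.Agent.K3h52.TP.AllB

set_option autoImplicit false

/-!
The general bound `2ᵈ (d log d + d log log d + C d)`.
-/

namespace Pool.Agent.K3h52.TP

open Real

theorem log_ge (n : ℝ) (hn : 0 < n) (a b : ℕ) (hb : 0 < b)
    (h : (2.7182818286 : ℝ) ^ a ≤ n ^ b) : (a : ℝ) / b ≤ log n := by
  rw [div_le_iff₀ (by exact_mod_cast hb)]
  have h1 : exp (a : ℝ) ≤ n ^ b := by
    refine le_trans ?_ h
    rw [← Real.exp_one_pow]
    exact pow_le_pow_left₀ (exp_pos 1).le Real.exp_one_lt_d9.le a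
  have h2 := Real.log_le_log (exp_pos _) h1
  rw [log_exp, log_pow] at h2
  linarith

theorem pow_diff_le (d : ℕ) (x : ℝ) (hx : 0 ≤ x) (hx1 : x ≤ 1) :
    (1 + x) ^ d - (1 - x) ^ d ≤ 2 * d * x * (1 + x) ^ d := by
  induction d with
  | zero => simp
  | succ d ih =>
    have h1 : 0 ≤ (1 - x) ^ d := pow_nonneg (by linarith) d
    have h2 : (1 - x) ^ d ≤ (1 + x) ^ d := pow_le_pow_left₀ (by linarith) (by linarith) d
    have h3 : 0 ≤ (1 + x) ^ d := by positivity
    have e : (1 + x) ^ (d + 1) - (1 - x) ^ (d + 1) =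
        (1 + x) * ((1 + x) ^ d - (1 - x) ^ d) + 2 * x * (1 - x) ^ d := by ring
    rw [e]
    have h4 := mul_le_mul_of_nonneg_left ih (show 0 ≤ 1 + x by linarith)
    have h5 : 2 * x * (1 - x) ^ d ≤ 2 * x * (1 + x) ^ (d + 1) := by
      refine mul_le_mul_of_nonneg_left ?_ (by positivity)
      refine h2.trans ?_
      rw [pow_succ]
      nlinarith
    push_cast
    calc (1 + x) * ((1 + x) ^ d - (1 - x) ^ d) + 2 * x * (1 - x) ^ d
        ≤ (1 + x) * (2 * d * x * (1 + x) ^ d) + 2 * x * (1 + x) ^ (d + 1) := add_le_add h4 h5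
      _ = 2 * (d + 1) * x * (1 + x) ^ (d + 1) := by ring

/-- The main estimate. -/
theorem steps_bound (d : ℕ) (hd : 9 ≤ d) (a C : ℝ) (ha : 2 ≤ a) (hC0 : 0 ≤ C)
    (hC : 0.5269 * (1 + 0.3679 + C * 0.4567) + 0.0247 ≤ C - log (a / 2)) :
    ∃ z : ℝ, 0 < z ∧ z < 1 ∧ ∃ n : ℕ, (left (((1 - z) / (2 - z)) ^ d))^[n] ⌊shell d a z⌋₊ = 0 ∧
      (n : ℝ) ≤ 2 ^ d * (d * log d + d * log (log d) + C * d) := by
  have hd9 : (9 : ℝ) ≤ d := by exact_mod_cast hd
  have hd0 : (0 : ℝ) < d := by linarith
  set l := log (d : ℝ) with hl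
  have hl1 : 2.19 ≤ l := by
    have h1 := log_ge 9 (by norm_num) 219 100 (by norm_num) (by norm_num)
    have h2 : log 9 ≤ l := Real.log_le_log (by norm_num) hd9
    have : ((219 : ℕ) : ℝ) / (100 : ℕ) = 2.19 := by norm_num
    linarith
  have hl0 : 0 < l := by linarith
  set k := log l with hk
  have hk1 : 0.78 ≤ k := by
    have h1 := log_ge 2.19 (by norm_num) 78 100 (by norm_num) (by norm_num)
    have h2 : log 2.19 ≤ k := Real.log_le_log (by norm_num) hl1
    have : ((78 : ℕ) : ℝ) / (100 : ℕ) = 0.78 := by norm_num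
    linarith
  have hk2 : k ≤ 0.3679 * l := by
    have h1 := Real.log_le_sub_one_of_pos (show 0 < l / exp 1 by positivity)
    rw [Real.log_div hl0.ne' (exp_pos 1).ne', log_exp] at h1
    have h2 : l / exp 1 ≤ 0.3679 * l := by
      rw [div_le_iff₀ (exp_pos 1)]
      have := Real.exp_one_gt_d9
      nlinarith
    linarith
  set z := 1 / ((d : ℝ) * l) with hz
  have hz0 : 0 < z := by positivity
  have hdl : 19.71 ≤ (d : ℝ) * l := by nlinarith
  have hz1 : z ≤ 0.05074 := by
    rw [hz, div_le_iff₀ (by positivity)]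
    linarith
  set β := log (a / 2) with hβ
  have hβ0 : 0 ≤ β := Real.log_nonneg (by linarith)
  have hdz : (d : ℝ) * z = 1 / l := by
    rw [hz]; field_simp
  set p := ((1 - z) / (2 - z)) ^ d with hp
  have h1z : 0 < 1 - z := by linarith
  have h2z : 0 < 2 - z := by linarith
  have hp0 : 0 < p := by positivity
  have hp1 : p ≤ 1 := by
    refine pow_le_one₀ (by positivity) ?_
    rw [div_le_one h2z]
    linarith
  set Λ := (d : ℝ) * (l + k + β) - k with hΛ
  have hΛ0 : 0 ≤ Λ := by
    rw [hΛ]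
    nlinarith
  -- the estimate of `p` times the number of bodies
  have hshell : p * ⌊shell d a z⌋₊ ≤ exp Λ := by
    have hs0 : 0 ≤ shell d a z := by
      unfold shell
      refine mul_nonneg (by positivity) ?_
      rw [sub_nonneg]
      exact pow_le_pow_left₀ (by linarith) (by linarith) d
    have h1 : p * ⌊shell d a z⌋₊ ≤ p * shell d a z :=
      mul_le_mul_of_nonneg_left (Nat.floor_le hs0) hp0.le
    refine h1.trans ?_
    have h2 : shell d a z ≤ (a / z) ^ d * (d * z * (1 + z / 2) ^ d) := by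
      unfold shell
      refine mul_le_mul_of_nonneg_left ?_ (by positivity)
      have := pow_diff_le d (z / 2) (by positivity) (by linarith)
      calc (1 + z / 2) ^ d - (1 - z / 2) ^ d ≤ 2 * d * (z / 2) * (1 + z / 2) ^ d := this
        _ = d * z * (1 + z / 2) ^ d := by ring
    have h3 : p * shell d a z ≤ d * z * (a / (2 * z)) ^ d := by
      calc p * shell d a z ≤ p * ((a / z) ^ d * (d * z * (1 + z / 2) ^ d)) :=
            mul_le_mul_of_nonneg_left h2 hp0.le
        _ = d * z * ((1 - z) / (2 - z) * (a / z) * (1 + z / 2)) ^ d := by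
            rw [hp, mul_pow, mul_pow]; ring
        _ ≤ d * z * (a / (2 * z)) ^ d := by
            refine mul_le_mul_of_nonneg_left ?_ (by positivity)
            refine pow_le_pow_left₀ (by positivity) ?_ d
            have e1 : (1 - z) / (2 - z) * (a / z) * (1 + z / 2) =
                (a / (2 * z)) * ((1 - z) * (2 + z) / (2 - z)) := by
              field_simp
            rw [e1]
            refine mul_le_of_le_one_right (by positivity) ?_
            rw [div_le_one h2z]
            nlinarith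
    refine h3.trans (le_of_eq ?_)
    have e2 : a / (2 * z) = d * l * (a / 2) := by
      rw [hz]; field_simp
    rw [e2, hdz]
    have e3 : (d : ℝ) * l * (a / 2) = exp (l + k + β) := by
      rw [exp_add, exp_add, hl, exp_log hd0, hk, exp_log hl0, hβ, exp_log (by positivity)]
    rw [e3, ← Real.exp_nat_mul, hΛ, exp_sub, hk, exp_log hl0, one_div, ← hk]
    rw [div_eq_mul_inv, mul_comm]
  obtain ⟨n, hn, hnle⟩ := exists_steps hp0 hp1 ⌊shell d a z⌋₊ Λ hΛ0 hshell
  refine ⟨z, hz0, by linarith, n, hn, hnle.trans ?_⟩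
  -- the final inequality
  set δ := 1 / (2 * l * (1 - z)) with hδ
  have hδ0 : 0 < δ := by positivity
  have hδ1 : δ ≤ 0.5269 / l := by
    rw [hδ, div_le_div_iff₀ (by positivity) hl0]
    nlinarith
  have hδ2 : δ ≤ 0.25 := by
    refine hδ1.trans ?_
    rw [div_le_iff₀ hl0]
    linarith
  have hpinv : 1 / p ≤ 2 ^ d / (1 - δ) := by
    have h1 : 1 / p = 2 ^ d * (1 + z / (2 * (1 - z))) ^ d := by
      rw [hp, ← mul_pow, ← one_div_pow]
      congr 1
      field_simp
      ring
    have h2 : (1 + z / (2 * (1 - z))) ^ d ≤ exp δ := by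
      calc (1 + z / (2 * (1 - z))) ^ d ≤ exp (z / (2 * (1 - z))) ^ d := by
            refine pow_le_pow_left₀ (by positivity) ?_ d
            have := Real.add_one_le_exp (z / (2 * (1 - z)))
            linarith
        _ = exp (d * (z / (2 * (1 - z)))) := by rw [← Real.exp_nat_mul]
        _ = exp δ := by
            congr 1
            have : (d : ℝ) * (z / (2 * (1 - z))) = d * z / (2 * (1 - z)) := by ring
            rw [this, hdz, hδ]
            field_simp
    have h3 : exp δ ≤ 1 / (1 - δ) := Real.exp_bound_div_one_sub_of_interval hδ0.le (by linarith)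
    have e4 : 2 ^ d / (1 - δ) = 2 ^ d * (1 / (1 - δ)) := by ring
    rw [h1, e4]
    exact mul_le_mul_of_nonneg_left (h2.trans h3) (by positivity)
  have hmain : (1 - δ) / 2 ^ d + (1 + Λ) ≤ (1 - δ) * (d * (l + k + C)) := by
    have h2d : (512 : ℝ) ≤ 2 ^ d := by
      calc (512 : ℝ) = 2 ^ 9 := by norm_num
        _ ≤ 2 ^ d := pow_le_pow_right₀ (by norm_num) hd
    have h1 : (1 - δ) / 2 ^ d ≤ 1 / 512 := by
      rw [div_le_div_iff₀ (by positivity) (by norm_num)]
      nlinarith
    have h2 : δ * (l + k + C) ≤ 0.5269 * (1 + 0.3679 + C * 0.4567) := by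
      have h3 : δ * (l + k + C) ≤ 0.5269 / l * (l + k + C) :=
        mul_le_mul_of_nonneg_right hδ1 (by linarith)
      refine h3.trans ?_
      have h4 : (l + k + C) / l ≤ 1 + 0.3679 + C * 0.4567 := by
        rw [div_le_iff₀ hl0]
        have h11 : 1 ≤ 0.4567 * l := by linarith
        have h12 := mul_le_mul_of_nonneg_left h11 hC0
        linarith
      calc 0.5269 / l * (l + k + C) = 0.5269 * ((l + k + C) / l) := by ring
        _ ≤ _ := mul_le_mul_of_nonneg_left h4 (by norm_num)
    have h5 : δ * (l + k + C) + 0.0247 ≤ C - β := by linarith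
    have h6 : (d : ℝ) * (δ * (l + k + C) + 0.0247) ≤ d * (C - β) :=
      mul_le_mul_of_nonneg_left h5 hd0.le
    have h7 : 1 / 512 + 1 - k ≤ (d : ℝ) * 0.0247 := by linarith
    rw [hΛ]
    have e5 : (1 - δ) * (d * (l + k + C)) = d * (l + k + C) - d * (δ * (l + k + C)) := by ring
    rw [e5]
    have e6 : (d : ℝ) * (δ * (l + k + C) + 0.0247) = d * (δ * (l + k + C)) + d * 0.0247 := by ring
    have e7 : (d : ℝ) * (C - β) = d * C - d * β := by ring
    have e8 : (d : ℝ) * (l + k + C) = d * (l + k) + d * C := by ring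
    have e9 : (d : ℝ) * (l + k + β) = d * (l + k) + d * β := by ring
    rw [e6, e7] at h6
    rw [e8, e9]
    linarith
  have hδ3 : 0 < 1 - δ := by linarith
  have h2d0 : (0 : ℝ) < 2 ^ d := by positivity
  have h9 : 1 + (1 + Λ) / p ≤ 1 + 2 ^ d / (1 - δ) * (1 + Λ) := by
    have : (1 + Λ) / p = 1 / p * (1 + Λ) := by ring
    rw [this]
    have := mul_le_mul_of_nonneg_right hpinv (show 0 ≤ 1 + Λ by linarith)
    linarith
  refine h9.trans ?_
  have h10 : 1 + 2 ^ d / (1 - δ) * (1 + Λ) = 2 ^ d / (1 - δ) * ((1 - δ) / 2 ^ d + (1 + Λ)) := by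
    field_simp
  rw [h10]
  calc 2 ^ d / (1 - δ) * ((1 - δ) / 2 ^ d + (1 + Λ))
      ≤ 2 ^ d / (1 - δ) * ((1 - δ) * (d * (l + k + C))) :=
        mul_le_mul_of_nonneg_left hmain (by positivity)
    _ = 2 ^ d * (d * l + d * k + C * d) := by
        field_simp

end Pool.Agent.K3h52.TP
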