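import Mathlib

set_option autoImplicit false

/-!
The greedy procedure: if some translate contains the share `p` of each set of points, then `n`
points are reduced in one step to at most `⌊(1 - p) n⌋` points.
-/

namespace Pool.Agent.K3h52.TP

/-- `n` points are reduced by one greedy step, with share `p`, to at most `⌊(1 - p) n⌋` points. -/
noncomputable def left (p : ℝ) (n : ℕ) : ℕ := ⌊(1 - p) * n⌋₊

theorem greedy {S E : Type*} (R : E → S → Prop) (p : ℝ) (n : ℕ) :
    ∀ (P : Finset S), (∀ F ⊆ P, F.Nonempty →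
      ∃ t, p * F.card ≤ ((open Classical in F.filter (fun x => R t x)).card : ℝ)) →
    ∀ k : ℕ, P.card ≤ k → (left p)^[n] k = 0 →
      ∃ T : Finset E, T.card ≤ n ∧ ∀ x ∈ P, ∃ t ∈ T, R t x := by
  classical
  induction n with
  | zero =>
    intro P _ k hk h0
    refine ⟨∅, le_rfl, ?_⟩
    have : P = ∅ := by
      rw [← Finset.card_eq_zero]
      simp only [Function.iterate_zero, id_eq] at h0
      omega
    simp [this]
  | succ n ih =>
    intro P h k hk h0
    rcases P.eq_empty_or_nonempty with rfl | hne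
    · exact ⟨∅, by simp, by simp⟩
    obtain ⟨t, ht⟩ := h P subset_rfl hne
    have hPc : (0 : ℝ) < P.card := by exact_mod_cast hne.card_pos
    have hfl : ((P.filter (fun x => R t x)).card : ℝ) ≤ P.card := by
      exact_mod_cast Finset.card_filter_le _ _
    have hp1 : p ≤ 1 := by
      by_contra hcon
      push Not at hcon
      nlinarith
    have hcard : (P.filter (fun x => ¬ R t x)).card ≤ left p k := by
      refine Nat.le_floor ?_
      have h1 : ((P.filter (fun x => R t x)).card : ℝ) + (P.filter (fun x => ¬ R t x)).card =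
          P.card := by
        exact_mod_cast Finset.card_filter_add_card_filter_not (s := P) (fun x => R t x)
      have h2 : (P.card : ℝ) ≤ k := by exact_mod_cast hk
      have h3 : ((P.filter (fun x => ¬ R t x)).card : ℝ) ≤ (1 - p) * P.card := by
        have ht' : p * (P.card : ℝ) ≤ ((P.filter (fun x => R t x)).card : ℝ) := by
          convert ht
        linarith
      refine h3.trans ?_
      exact mul_le_mul_of_nonneg_left h2 (by linarith)
    obtain ⟨T, hT, hcov⟩ := ih (P.filter (fun x => ¬ R t x))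
      (fun F hF hFne => h F (hF.trans (Finset.filter_subset _ _)) hFne) (left p k) hcard (by
        rw [← Function.iterate_succ_apply]; exact h0)
    refine ⟨insert t T, (Finset.card_insert_le _ _).trans (by omega), ?_⟩
    intro x hx
    by_cases hxt : R t x
    · exact ⟨t, Finset.mem_insert_self _ _, hxt⟩
    · obtain ⟨s, hs, hsx⟩ := hcov x (by rw [Finset.mem_filter]; exact ⟨hx, hxt⟩)
      exact ⟨s, Finset.mem_insert_of_mem hs, hsx⟩

theorem left_mono (p : ℝ) (hp : p ≤ 1) {a b : ℕ} (h : a ≤ b) : left p a ≤ left p b := by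
  unfold left
  refine Nat.floor_le_floor ?_
  exact mul_le_mul_of_nonneg_left (by exact_mod_cast h) (by linarith)

theorem left_anti {p q : ℝ} (h : p ≤ q) (n : ℕ) : left q n ≤ left p n := by
  unfold left
  refine Nat.floor_le_floor ?_
  exact mul_le_mul_of_nonneg_right (by linarith) (Nat.cast_nonneg n)

theorem left_zero (p : ℝ) : left p 0 = 0 := by simp [left]

theorem left_lt {p : ℝ} (hp : 0 < p) {n : ℕ} (hn : 0 < n) : left p n < n := by
  unfold left
  have hn' : (0 : ℝ) < n := by exact_mod_cast hn
  rcases le_or_gt 0 ((1 - p) * n) with h | h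
  · rw [Nat.floor_lt h]
    nlinarith
  · rw [Nat.floor_of_nonpos h.le]
    exact hn

theorem iter_le_sub {p : ℝ} (hp : 0 < p) (k : ℕ) : ∀ n, (left p)^[n] k ≤ k - n := by
  intro n
  induction n with
  | zero => simp
  | succ n ih =>
    rw [Function.iterate_succ_apply']
    rcases Nat.eq_zero_or_pos ((left p)^[n] k) with h | h
    · rw [h, left_zero]; omega
    · have := left_lt hp h
      omega

theorem iter_le_pow {p : ℝ} (hp1 : p ≤ 1) (k : ℕ) :
    ∀ n, ((left p)^[n] k : ℝ) ≤ (1 - p) ^ n * k := by
  intro n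
  induction n with
  | zero => simp
  | succ n ih =>
    rw [Function.iterate_succ_apply', pow_succ, mul_comm ((1 - p) ^ n), mul_assoc]
    have h1 : 0 ≤ (1 - p) * ((left p)^[n] k : ℝ) := mul_nonneg (by linarith) (Nat.cast_nonneg _)
    refine (Nat.floor_le h1).trans ?_
    exact mul_le_mul_of_nonneg_left ih (by linarith)

/-- `1 + (1 + log⁺ (p k)) / p` steps are enough. -/
theorem exists_steps {p : ℝ} (hp : 0 < p) (hp1 : p ≤ 1) (k : ℕ) (Λ : ℝ) (hΛ0 : 0 ≤ Λ)
    (hΛ : p * k ≤ Real.exp Λ) :
    ∃ n : ℕ, (left p)^[n] k = 0 ∧ (n : ℝ) ≤ 1 + (1 + Λ) / p := by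
  set M := ⌈Λ / p⌉₊ with hM
  have hM1 : Λ / p ≤ M := Nat.le_ceil _
  have hM2 : (M : ℝ) < Λ / p + 1 := Nat.ceil_lt_add_one (by positivity)
  set j := (left p)^[M] k with hj
  have hj1 : (j : ℝ) ≤ 1 / p := by
    have h1 := iter_le_pow hp1 k M
    rw [← hj] at h1
    have h2 : (1 - p) ^ M ≤ Real.exp (-Λ) := by
      calc (1 - p) ^ M ≤ Real.exp (-p) ^ M := by
            refine pow_le_pow_left₀ (by linarith) ?_ _
            have := Real.add_one_le_exp (-p)
            linarith
        _ = Real.exp (M * (-p)) := by rw [← Real.exp_nat_mul]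
        _ ≤ Real.exp (-Λ) := by
            refine Real.exp_le_exp.mpr ?_
            rw [div_le_iff₀ hp] at hM1
            linarith
    have h3 : (1 - p) ^ M * (k : ℝ) ≤ Real.exp (-Λ) * k :=
      mul_le_mul_of_nonneg_right h2 (Nat.cast_nonneg _)
    have h4 : Real.exp (-Λ) * k ≤ 1 / p := by
      rw [le_div_iff₀ hp, Real.exp_neg]
      have : (Real.exp Λ)⁻¹ * k * p = (p * k) / Real.exp Λ := by
        field_simp
      rw [this, div_le_one (Real.exp_pos _)]
      exact hΛ
    linarith
  refine ⟨j + M, ?_, ?_⟩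
  · rw [Function.iterate_add_apply, ← hj]
    have := iter_le_sub hp j j
    omega
  · push_cast
    have : (1 + Λ) / p = 1 / p + Λ / p := by ring
    rw [this]
    linarith

end Pool.Agent.K3h52.TP
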