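import Pool.Agent.K3h76.UC.Count

set_option autoImplicit false

/-!
The share of a finite set in a translate, with a weight function on the set of sums.
-/

namespace Pool.Agent.K3h52.TP

open MeasureTheory Module
open scoped Pointwise
open Pool.Agent.H2R2.Cov Pool.Agent.K3h76.UC

variable {E : Type*} [NormedAddCommGroup E] [NormedSpace ℝ E] [FiniteDimensional ℝ E]
  [MeasurableSpace E] [BorelSpace E] (μ : Measure E) [μ.IsAddHaarMeasure]

omit [NormedSpace ℝ E] [FiniteDimensional ℝ E] in
theorem memLp_fx (L : Set E) (hL : MeasurableSet L) (hLf : μ L ≠ ⊤) (x : E) :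
    MemLp (fx L x) 2 μ := by
  have h1 : MemLp (L.indicator (fun _ => (1 : ℝ))) 2 μ :=
    memLp_indicator_const 2 hL (1 : ℝ) (Or.inr hLf)
  exact h1.comp_measurePreserving (measurePreserving_sub_right μ x)

omit [NormedSpace ℝ E] [FiniteDimensional ℝ E] in
theorem fx_mul (L : Set E) (hL : MeasurableSet L) (φ : E → ℝ) (x : E) :
    ∫ z, fx L x z * φ z ∂μ = ∫ u in L, φ (x + u) ∂μ := by
  rw [← integral_indicator hL, ← integral_add_left_eq_self (fun z => fx L x z * φ z) x]
  congr 1
  ext u
  unfold fx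
  rw [add_sub_cancel_left]
  by_cases hu : u ∈ L
  · rw [Set.indicator_of_mem hu, Set.indicator_of_mem hu, one_mul]
  · rw [Set.indicator_of_notMem hu, Set.indicator_of_notMem hu, zero_mul]

/-- **Share.** Let `φ` be a square integrable function such that the integral of `φ (x + u)`,
`u ∈ L`, is at least `m` for all `x ∈ F`. Then some translate of `L` contains the share
`m² / (μ L ∫ φ²)` of `F`. -/
theorem share (F : Finset E) (L : Set E) (hL : MeasurableSet L) (hLf : μ L ≠ ⊤)
    (φ : E → ℝ) (hφ : MemLp φ 2 μ) (m : ℝ) (hm : 0 ≤ m)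
    (h : ∀ x ∈ F, m ≤ ∫ u in L, φ (x + u) ∂μ) :
    ∃ t : E, m ^ 2 * F.card ≤ wt F (fun _ => 1) L t * (μ.real L * ∫ z, φ z ^ 2 ∂μ) := by
  classical
  obtain ⟨t₀, ht₀⟩ := exists_max_wt F (fun _ => 1) L
  refine ⟨t₀, ?_⟩
  set q := wt F (fun _ => 1) L t₀ with hq
  have hq0 : 0 ≤ q := wt_nonneg F _ (fun _ _ => zero_le_one) L t₀
  obtain ⟨hg2i, hg2⟩ := sq_bound μ F (fun _ => 1) (fun _ _ => zero_le_one) L hL hLf q ht₀
  simp only [one_mul, Finset.sum_const, nsmul_eq_mul, mul_one] at hg2i hg2
  set g : E → ℝ := fun z => ∑ x ∈ F, fx L x z with hg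
  have hgLp : MemLp g 2 μ := memLp_finsetSum F (fun x _ => memLp_fx μ L hL hLf x)
  set J := ∫ z, φ z ^ 2 ∂μ with hJ
  have hJ0 : 0 ≤ J := integral_nonneg fun z => sq_nonneg _
  set I := ∫ z, g z * φ z ∂μ with hI
  have hgφ : Integrable (fun z => g z * φ z) μ := hgLp.integrable_mul hφ
  have hφ2 : Integrable (fun z => φ z ^ 2) μ := hφ.integrable_sq
  have hIge : F.card * m ≤ I := by
    have h1 : I = ∑ x ∈ F, ∫ z, fx L x z * φ z ∂μ := by
      rw [hI, hg]
      simp only [Finset.sum_mul]
      exact integral_finsetSum F (f := fun x z => fx L x z * φ z)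
        (fun x _ => (memLp_fx μ L hL hLf x).integrable_mul hφ)
    rw [h1, ← nsmul_eq_mul, ← Finset.sum_const]
    refine Finset.sum_le_sum fun x hx => ?_
    rw [fx_mul μ L hL φ x]
    exact h x hx
  have hI0 : 0 ≤ I := le_trans (by positivity) hIge
  have hCS : ∀ c : ℝ, 2 * c * I - c ^ 2 * J ≤ F.card * (q * μ.real L) := by
    intro c
    refine le_trans ?_ hg2
    have e1 : 2 * c * I - c ^ 2 * J = ∫ z, (2 * c * (g z * φ z) - c ^ 2 * φ z ^ 2) ∂μ := by
      rw [integral_sub (hgφ.const_mul _) (hφ2.const_mul _), integral_const_mul,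
        integral_const_mul]
    rw [e1]
    refine integral_mono ((hgφ.const_mul _).sub (hφ2.const_mul _)) hg2i fun z => ?_
    simp only
    nlinarith [sq_nonneg (g z - c * φ z)]
  have hLr : 0 ≤ μ.real L := measureReal_nonneg
  have hIsq : I ^ 2 ≤ F.card * (q * μ.real L) * J := by
    rcases eq_or_lt_of_le hJ0 with h0 | h0
    · rw [← h0] at hCS
      have hI1 : I = 0 := by
        by_contra hne
        have hIpos : 0 < I := lt_of_le_of_ne hI0 (Ne.symm hne)
        have h1 := hCS ((F.card * (q * μ.real L) + 1) / (2 * I))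
        rw [mul_zero, sub_zero] at h1
        have h2 : 2 * ((F.card * (q * μ.real L) + 1) / (2 * I)) * I =
            F.card * (q * μ.real L) + 1 := by
          field_simp
        linarith
      rw [hI1, ← h0]
      simp
    · have h1 := hCS (I / J)
      have h2 : 2 * (I / J) * I - (I / J) ^ 2 * J = I ^ 2 / J := by
        field_simp
        ring
      rw [h2, div_le_iff₀ h0] at h1
      exact h1
  rcases Nat.eq_zero_or_pos F.card with hF | hF
  · rw [hF, Nat.cast_zero, mul_zero]
    positivity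
  have hF' : (0 : ℝ) < F.card := by exact_mod_cast hF
  have h5 : (F.card * m) ^ 2 ≤ F.card * (q * μ.real L) * J :=
    (pow_le_pow_left₀ (by positivity) hIge 2).trans hIsq
  have h6 : F.card * (m ^ 2 * F.card) ≤ F.card * (q * (μ.real L * J)) := by
    calc (F.card : ℝ) * (m ^ 2 * F.card) = (F.card * m) ^ 2 := by ring
      _ ≤ F.card * (q * μ.real L) * J := h5
      _ = F.card * (q * (μ.real L * J)) := by ring
  exact le_of_mul_le_mul_left h6 hF'

end Pool.Agent.K3h52.TP
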