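import Pool.Agent.K3h52.TP.Net
import Pool.Agent.K3h52.TP.Share
import Pool.Agent.K3h52.TP.Greedy

set_option autoImplicit false

/-!
The covering criterion.
-/

namespace Pool.Agent.K3h52.TP

open MeasureTheory Module
open scoped Pointwise ENNReal
open Pool.Agent.H2R2.Cov Pool.Agent.K3h76.UC

variable {E : Type*} [NormedAddCommGroup E] [NormedSpace ℝ E] [FiniteDimensional ℝ E]
  [MeasurableSpace E] [BorelSpace E] (μ : Measure E) [μ.IsAddHaarMeasure]

/-- The number of small bodies in the shell: `(a / z)ᵈ ((1 + z/2)ᵈ - (1 - z/2)ᵈ)`. -/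
noncomputable def shell (d : ℕ) (a z : ℝ) : ℝ :=
  (a / z) ^ d * ((1 + z / 2) ^ d - (1 - z / 2) ^ d)

/-- The criterion, with a given symmetric part `U` of the body. -/
theorem crit_aux (A : Set E) (hA : Convex ℝ A) (hAc : IsCompact A)
    (X : Set E) (hXA : X ⊆ A) (hXi : Disjoint X (interior A))
    (c : E) (U : Set E) (hU : Convex ℝ U) (hUs : ∀ v ∈ U, -v ∈ U) (hUo : IsOpen U)
    (hUA : ∀ v ∈ U, c + v ∈ A) (hU0 : U.Nonempty) (z : ℝ) (hz : 0 < z) (hz1 : z < 1)
    (V : ℝ) (hV : ((1 + z / 2) ^ finrank ℝ E - (1 - z / 2) ^ finrank ℝ E) * μ.real A ≤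
      V * ((z / 2) ^ finrank ℝ E * μ.real U))
    (k : ℕ) (hk : ⌊V⌋₊ ≤ k ∨ X.Finite ∧ X.ncard ≤ k)
    (φ : E → ℝ) (hφ : MemLp φ 2 μ) (m : ℝ) (hm : 0 < m)
    (h : ∀ x ∈ X, m ≤ ∫ u in (1 - z) • A, φ (x + u) ∂μ)
    (p : ℝ) (hp : p * (μ.real ((1 - z) • A) * ∫ z, φ z ^ 2 ∂μ) ≤ m ^ 2)
    (n : ℕ) (hn : (left p)^[n] k = 0) :
    ∃ T : Finset E, X ⊆ ⋃ t ∈ T, (fun x => t + x) '' interior A ∧ T.card ≤ n := by
  classical
  set d := finrank ℝ E with hd
  rcases X.eq_empty_or_nonempty with rfl | ⟨x₀, hx₀⟩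
  · exact ⟨∅, by simp, by simp⟩
  have hAf : μ A ≠ ⊤ := hAc.measure_lt_top.ne
  have hUf : μ U ≠ ⊤ := by
    have h1 : μ U ≤ μ A := by
      rw [← measure_preimage_add μ c A]
      exact measure_mono fun v hv => hUA v hv
    exact ne_top_of_le_ne_top hAf h1
  have hUr : 0 < μ.real U := ENNReal.toReal_pos (hUo.measure_pos μ hU0).ne' hUf
  obtain ⟨F, hFX, hnet, hcard⟩ := exists_net_bd μ A hA hAc X hXA hXi c U hU hUs hUo hUA hU0 (z / 2)
    (by positivity) (by linarith)
  have e2 : 2 * (z / 2) = z := by ring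
  rw [e2] at hnet
  have hFV : F.card ≤ k := by
    rcases hk with hk | ⟨hXf, hk⟩
    · refine le_trans (Nat.le_floor ?_) hk
      have h1 := hcard.trans hV
      exact le_of_mul_le_mul_right h1 (by positivity)
    · refine le_trans ?_ hk
      rw [← Set.ncard_coe_finset F]
      exact Set.ncard_le_ncard (fun x hx => hFX x hx) hXf
  set L : Set E := (1 - z) • A with hL
  have hLc : IsCompact L := hAc.smul (1 - z)
  have hLm : MeasurableSet L := hLc.isClosed.measurableSet
  have hLf : μ L ≠ ⊤ := hLc.measure_lt_top.ne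
  have hUint : ∀ v ∈ U, c + v ∈ interior A := by
    intro v hv
    have h1 : IsOpen ((fun y => -c + y) ⁻¹' U) := hUo.preimage (by fun_prop)
    have h2 : (fun y => -c + y) ⁻¹' U ⊆ A := by
      intro y hy
      have := hUA _ hy
      simpa using this
    exact interior_maximal h2 h1 (by simpa using hv)
  have hshare : ∀ G : Finset E, (∀ x ∈ G, x ∈ X) → G.Nonempty →
      ∃ t : E, p * G.card ≤ wt G (fun _ => 1) L t := by
    intro G hG hGne
    obtain ⟨t, ht⟩ := share μ G L hLm hLf φ hφ m hm.le (fun x hx => h x (hG x hx))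
    refine ⟨t, ?_⟩
    set Q := μ.real L * ∫ z, φ z ^ 2 ∂μ with hQ
    have hQ0 : 0 ≤ Q := mul_nonneg measureReal_nonneg (integral_nonneg fun z => sq_nonneg _)
    have hGc : (0 : ℝ) < G.card := by exact_mod_cast hGne.card_pos
    rcases eq_or_lt_of_le hQ0 with h0 | h0
    · rw [← h0, mul_zero] at ht
      have : 0 < m ^ 2 * G.card := by positivity
      linarith
    · have h1 : p * G.card * Q ≤ wt G (fun _ => 1) L t * Q := by
        calc p * G.card * Q = p * Q * G.card := by ring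
          _ ≤ m ^ 2 * G.card := mul_le_mul_of_nonneg_right hp hGc.le
          _ ≤ wt G (fun _ => 1) L t * Q := ht
      exact le_of_mul_le_mul_right h1 h0
  obtain ⟨Y, hYc, hY⟩ := greedy (fun t x : E => x - t ∈ L) p n F (by
    intro G hG hGne
    obtain ⟨t, ht⟩ := hshare G (fun x hx => hFX x (hG hx)) hGne
    refine ⟨t, ?_⟩
    rw [wt_one] at ht
    exact ht) k hFV hn
  refine ⟨Y.image (fun t => t - z • c), ?_, Finset.card_image_le.trans hYc⟩
  intro y hy
  obtain ⟨x, hxF, u, hu, hyx⟩ := hnet y hy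
  obtain ⟨t, htY, ht⟩ := hY x hxF
  obtain ⟨a, ha, hat⟩ := ht
  simp only at hat
  rw [Set.mem_iUnion₂]
  refine ⟨t - z • c, Finset.mem_image_of_mem _ htY, (1 - z) • a + z • (c + u), ?_, ?_⟩
  · exact hA.combo_self_interior_mem_interior ha (hUint u hu) (by linarith) hz (by ring)
  · simp only
    have hx : x = t + (1 - z) • a := by rw [hat]; abel
    rw [hyx, hx, smul_add]
    abel

/-- **The criterion.** Let `X` be a set of boundary points of the convex body `A`, `0 < z < 1`, and
let `φ` be a square integrable function such that the integral of `φ (x + u)` over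
`u ∈ (1 - z) A` is at least `m > 0` for all `x ∈ X`; let `p ≤ m² / (vol ((1 - z) A) ∫ φ²)`. Then
`X` is covered by as many translates of the interior as steps are necessary to
reduce `⌊(4/z)ᵈ ((1 + z/2)ᵈ - (1 - z/2)ᵈ)⌋`, or the number of points of `X`, to `0` by the map
`k ↦ ⌊(1 - p) k⌋`. -/
theorem crit (A : Set E) (hA : Convex ℝ A) (hAc : IsCompact A) (hAi : (interior A).Nonempty)
    (X : Set E) (hXA : X ⊆ A) (hXi : Disjoint X (interior A)) (z : ℝ) (hz : 0 < z) (hz1 : z < 1)
    (φ : E → ℝ) (hφ : MemLp φ 2 μ) (m : ℝ) (hm : 0 < m)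
    (h : ∀ x ∈ X, m ≤ ∫ u in (1 - z) • A, φ (x + u) ∂μ)
    (p : ℝ) (hp : p * (μ.real ((1 - z) • A) * ∫ z, φ z ^ 2 ∂μ) ≤ m ^ 2)
    (k : ℕ) (hk : ⌊shell (finrank ℝ E) 4 z⌋₊ ≤ k ∨ X.Finite ∧ X.ncard ≤ k)
    (n : ℕ) (hn : (left p)^[n] k = 0) :
    ∃ T : Finset E, X ⊆ ⋃ t ∈ T, (fun x => t + x) '' interior A ∧ T.card ≤ n := by
  obtain ⟨c, hc⟩ := exists_sym μ A hA hAc hAi
  set S : Set E := {v | c + v ∈ A ∧ c - v ∈ A} with hS
  have hSconv : Convex ℝ S := by
    intro v hv w hw a b ha hb hab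
    have hc1 : c = a • c + b • c := by rw [← add_smul, hab, one_smul]
    constructor
    · have := hA hv.1 hw.1 ha hb hab
      have e : a • (c + v) + b • (c + w) = c + (a • v + b • w) := by
        rw [smul_add, smul_add]
        nth_rewrite 3 [hc1]
        abel
      rwa [e] at this
    · have := hA hv.2 hw.2 ha hb hab
      have e : a • (c - v) + b • (c - w) = c - (a • v + b • w) := by
        rw [smul_sub, smul_sub]
        nth_rewrite 3 [hc1]
        abel
      rwa [e] at this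
  have hSc : IsCompact S := by
    have h1 : IsClosed S := by
      have e1 : S = (fun v => c + v) ⁻¹' A ∩ (fun v => c - v) ⁻¹' A := rfl
      rw [e1]
      exact (hAc.isClosed.preimage (by fun_prop)).inter (hAc.isClosed.preimage (by fun_prop))
    have h2 : S ⊆ (fun y => y - c) '' A := by
      intro v hv
      exact ⟨c + v, hv.1, by simp⟩
    exact (hAc.image (by fun_prop)).of_isClosed_subset h1 h2
  have hSr : μ.real S = μ.real (A ∩ {x | (2 : ℝ) • c - x ∈ A}) := by
    have h1 : S = (fun v => c + v) ⁻¹' (A ∩ {x | (2 : ℝ) • c - x ∈ A}) := by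
      ext v
      simp only [hS, Set.mem_ofPred_eq, Set.mem_preimage, Set.mem_inter_iff]
      have : (2 : ℝ) • c - (c + v) = c - v := by rw [two_smul]; abel
      rw [this]
    rw [h1, measureReal_def, measure_preimage_add]
    rfl
  have hAr := real_pos' μ hAc hAi
  set d := finrank ℝ E with hd
  have hSpos : 0 < μ.real S := by
    rw [hSr]
    by_contra hcon
    push Not at hcon
    have h2 : (2 : ℝ) ^ d * μ.real (A ∩ {x | (2 : ℝ) • c - x ∈ A}) ≤ 0 :=
      mul_nonpos_of_nonneg_of_nonpos (by positivity) hcon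
    linarith
  have hUr : μ.real (interior S) = μ.real S := real_interior μ hSconv hSc
  have hSs : ∀ v ∈ S, -v ∈ S := fun v hv => ⟨by simpa [sub_eq_add_neg] using hv.2, by simpa using hv.1⟩
  refine crit_aux μ A hA hAc X hXA hXi c (interior S) hSconv.interior ?_ isOpen_interior
    (fun v hv => (interior_subset hv).1) ?_ z hz hz1 (shell d 4 z) ?_ k hk φ hφ m hm
    h p hp n hn
  · intro v hv
    have h1 : IsOpen (Neg.neg ⁻¹' interior S) := isOpen_interior.preimage continuous_neg
    have h2 : Neg.neg ⁻¹' interior S ⊆ S := by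
      intro w hw
      have := hSs _ (interior_subset hw)
      simpa using this
    have h3 := interior_maximal h2 h1
    apply h3
    simpa using hv
  · rw [Set.nonempty_iff_ne_empty]
    intro hemp
    rw [hemp, measureReal_empty] at hUr
    linarith
  · rw [hUr, hSr]
    unfold shell
    have hb : 0 ≤ (1 + z / 2) ^ d - (1 - z / 2) ^ d := by
      rw [sub_nonneg]
      exact pow_le_pow_left₀ (by linarith) (by linarith) d
    set w := (1 + z / 2) ^ d - (1 - z / 2) ^ d with hw
    have e1 : (4 / z) ^ d * w * ((z / 2) ^ d * μ.real (A ∩ {x | (2 : ℝ) • c - x ∈ A})) =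
        w * (2 ^ d * μ.real (A ∩ {x | (2 : ℝ) • c - x ∈ A})) := by
      have e2 : (4 / z) ^ d * (z / 2) ^ d = 2 ^ d := by
        rw [← mul_pow]
        congr 1
        field_simp
        norm_num
      rw [← e2]
      ring
    rw [e1]
    exact mul_le_mul_of_nonneg_left hc hb

/-- The criterion for a body with a centre of symmetry: `2` instead of `4`. -/
theorem crit_symm (A : Set E) (hA : Convex ℝ A) (hAc : IsCompact A) (hAi : (interior A).Nonempty)
    (o : E) (ho : ∀ x ∈ A, (2 : ℝ) • o - x ∈ A)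
    (X : Set E) (hXA : X ⊆ A) (hXi : Disjoint X (interior A)) (z : ℝ) (hz : 0 < z) (hz1 : z < 1)
    (φ : E → ℝ) (hφ : MemLp φ 2 μ) (m : ℝ) (hm : 0 < m)
    (h : ∀ x ∈ X, m ≤ ∫ u in (1 - z) • A, φ (x + u) ∂μ)
    (p : ℝ) (hp : p * (μ.real ((1 - z) • A) * ∫ z, φ z ^ 2 ∂μ) ≤ m ^ 2)
    (k : ℕ) (hk : ⌊shell (finrank ℝ E) 2 z⌋₊ ≤ k ∨ X.Finite ∧ X.ncard ≤ k)
    (n : ℕ) (hn : (left p)^[n] k = 0) :
    ∃ T : Finset E, X ⊆ ⋃ t ∈ T, (fun x => t + x) '' interior A ∧ T.card ≤ n := by
  have hAr := real_pos' μ hAc hAi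
  set d := finrank ℝ E with hd
  set U : Set E := (fun v => o + v) ⁻¹' interior A with hU
  have hUo : IsOpen U := isOpen_interior.preimage (by fun_prop)
  have hUr : μ.real U = μ.real A := by
    rw [← real_interior μ hA hAc, hU, measureReal_def, measure_preimage_add]
    rfl
  refine crit_aux μ A hA hAc X hXA hXi o U ?_ ?_ hUo (fun v hv => interior_subset hv) ?_ z hz hz1
    (shell d 2 z) ?_ k hk φ hφ m hm h p hp n hn
  · exact hA.interior.translate_preimage_right o
  · intro v hv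
    have h1 : IsOpen ((fun x => (2 : ℝ) • o - x) ⁻¹' interior A) :=
      isOpen_interior.preimage (by fun_prop)
    have h2 : (fun x => (2 : ℝ) • o - x) ⁻¹' interior A ⊆ A := by
      intro x hx
      have := ho _ (interior_subset hx)
      simpa using this
    have h3 := interior_maximal h2 h1
    show o + -v ∈ interior A
    apply h3
    show (2 : ℝ) • o - (o + -v) ∈ interior A
    have e : (2 : ℝ) • o - (o + -v) = o + v := by rw [two_smul]; abel
    rw [e]
    exact hv
  · obtain ⟨y, hy⟩ := hAi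
    exact ⟨y - o, by show o + (y - o) ∈ interior A; rwa [add_sub_cancel]⟩
  · rw [hUr]
    unfold shell
    refine le_of_eq ?_
    have e2 : (2 / z) ^ d * (z / 2) ^ d = 1 := by
      rw [← mul_pow]
      have : 2 / z * (z / 2) = 1 := by field_simp
      rw [this, one_pow]
    calc ((1 + z / 2) ^ d - (1 - z / 2) ^ d) * μ.real A
        = ((2 / z) ^ d * (z / 2) ^ d) * (((1 + z / 2) ^ d - (1 - z / 2) ^ d) * μ.real A) := by
          rw [e2, one_mul]
      _ = _ := by ring

end Pool.Agent.K3h52.TP
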