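import Pool.Agent.K3h52.TP.BallThr

set_option autoImplicit false

/-!
Bodies with finitely many extreme points, all bodies: the sum with a compact convex set.
-/

namespace Pool.Agent.K3h52.TP

open scoped RealInnerProductSpace Pointwise
open Module MeasureTheory Real Pool.Agent.K3h76.UC Filter Topology

theorem exists_z (d N : ℕ) :
    ∃ z : ℝ, 0 < z ∧ z < 1 ∧ ∀ k ≤ N, left (((1 - z) / (2 - z)) ^ d) k = left (1 / 2 ^ d) k := by
  have hlim : ∀ k : ℕ, ∀ᶠ z in 𝓝[>] (0 : ℝ),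
      left (((1 - z) / (2 - z)) ^ d) k = left (1 / 2 ^ d) k := by
    intro k
    have h1 : ContinuousAt (fun z : ℝ => (1 - ((1 - z) / (2 - z)) ^ d) * k) 0 := by
      have h2 : ContinuousAt (fun z : ℝ => (1 - z) / (2 - z)) 0 :=
        ContinuousAt.div (by fun_prop) (by fun_prop) (by norm_num)
      exact (continuousAt_const.sub (h2.pow d)).mul continuousAt_const
    have h3 : (1 - ((1 - (0 : ℝ)) / (2 - 0)) ^ d) * k = (1 - 1 / 2 ^ d) * k := by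
      rw [sub_zero, sub_zero, one_div_pow]
    have h4 : ∀ᶠ z in 𝓝[>] (0 : ℝ),
        (1 - ((1 - z) / (2 - z)) ^ d) * (k : ℝ) < left (1 / 2 ^ d) k + 1 := by
      have h5 : (1 - ((1 - (0 : ℝ)) / (2 - 0)) ^ d) * k < left (1 / 2 ^ d) k + 1 := by
        rw [h3]
        exact Nat.lt_floor_add_one _
      exact (h1.eventually_lt continuousAt_const h5).filter_mono nhdsWithin_le_nhds
    have h6 : ∀ᶠ z in 𝓝[>] (0 : ℝ), 0 < z ∧ z < 1 := by
      have := Ioo_mem_nhdsGT (show (0 : ℝ) < 1 by norm_num)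
      exact this
    filter_upwards [h4, h6] with z hz hz'
    refine le_antisymm ?_ ?_
    · refine Nat.lt_succ_iff.1 ?_
      unfold left at hz ⊢
      have h7 : 0 ≤ (1 - ((1 - z) / (2 - z)) ^ d) * (k : ℝ) := by
        refine mul_nonneg ?_ (Nat.cast_nonneg _)
        rw [sub_nonneg]
        refine pow_le_one₀ (div_nonneg (by linarith) (by linarith)) ?_
        rw [div_le_one (by linarith)]
        linarith
      rw [Nat.floor_lt h7]
      push_cast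
      exact hz
    · refine left_anti ?_ k
      rw [← one_div_pow]
      refine pow_le_pow_left₀ (div_nonneg (by linarith) (by linarith)) ?_ d
      rw [div_le_div_iff₀ (by linarith) two_pos]
      linarith
  have h8 : ∀ᶠ z in 𝓝[>] (0 : ℝ), ∀ k ∈ Finset.range (N + 1),
      left (((1 - z) / (2 - z)) ^ d) k = left (1 / 2 ^ d) k := by
    rw [Filter.eventually_all_finset]
    exact fun k _ => hlim k
  have h9 : ∀ᶠ z in 𝓝[>] (0 : ℝ), 0 < z ∧ z < 1 := Ioo_mem_nhdsGT (show (0 : ℝ) < 1 by norm_num)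
  obtain ⟨z, hz, hz'⟩ := (h8.and h9).exists
  exact ⟨z, hz'.1, hz'.2, fun k hk => hz k (by rw [Finset.mem_range]; omega)⟩

theorem iter_le {p : ℝ} (hp : 0 ≤ p) (hp1 : p ≤ 1) (N : ℕ) : ∀ j, (left p)^[j] N ≤ N := by
  intro j
  induction j with
  | zero => simp
  | succ j ih =>
    rw [Function.iterate_succ_apply']
    refine le_trans ?_ ih
    unfold left
    refine Nat.floor_le_of_le ?_
    exact mul_le_of_le_one_left (Nat.cast_nonneg _) (by linarith)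

theorem iter_congr {p q : ℝ} (hp : 0 ≤ p) (hp1 : p ≤ 1) (N : ℕ)
    (h : ∀ k ≤ N, left q k = left p k) : ∀ j, (left q)^[j] N = (left p)^[j] N := by
  intro j
  induction j with
  | zero => rfl
  | succ j ih =>
    rw [Function.iterate_succ_apply', Function.iterate_succ_apply', ih]
    exact h _ (iter_le hp hp1 N j)

variable {E : Type*} [NormedAddCommGroup E] [InnerProductSpace ℝ E] [FiniteDimensional ℝ E]

/-- All bodies. -/
theorem all_sum (A B : Set E) (hA : Convex ℝ A) (hAc : IsCompact A)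
    (hAi : (interior A).Nonempty) (hB : Convex ℝ B) (hBc : IsCompact B) (hBn : B.Nonempty)
    (d : ℕ) (hd : finrank ℝ E = d) (hd1 : 1 ≤ d) (z : ℝ) (hz : 0 < z) (hz1 : z < 1)
    (k : ℕ) (hk : ⌊shell d 4 z⌋₊ ≤ k ∨
      (A.extremePoints ℝ).Finite ∧ (A.extremePoints ℝ).ncard ≤ k)
    (n : ℕ) (hn : (left (((1 - z) / (2 - z)) ^ d))^[n] k = 0) :
    ∃ T : Finset E, A + B ⊆ ⋃ t ∈ T, (fun x => t + x) '' interior (A + B) ∧ T.card ≤ n := by
  borelize E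
  obtain ⟨T, hT, hcard⟩ := all_cov A hA hAc hAi (A.extremePoints ℝ) extremePoints_subset
    (ext_disj A (by omega)) z hz hz1 k (by rw [hd]; exact hk) n (by rw [hd]; exact hn)
  obtain ⟨T', hT'card, hT'⟩ := cov_sum hA hAc hAi hB hBc hBn T hT
  exact ⟨T', hT', hT'card.trans hcard⟩

theorem all_sum_symm (A B : Set E) (hA : Convex ℝ A) (hAc : IsCompact A)
    (hAi : (interior A).Nonempty) (o : E) (ho : ∀ x ∈ A, (2 : ℝ) • o - x ∈ A)
    (hB : Convex ℝ B) (hBc : IsCompact B) (hBn : B.Nonempty)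
    (d : ℕ) (hd : finrank ℝ E = d) (hd1 : 1 ≤ d) (z : ℝ) (hz : 0 < z) (hz1 : z < 1)
    (k : ℕ) (hk : ⌊shell d 2 z⌋₊ ≤ k ∨
      (A.extremePoints ℝ).Finite ∧ (A.extremePoints ℝ).ncard ≤ k)
    (n : ℕ) (hn : (left (((1 - z) / (2 - z)) ^ d))^[n] k = 0) :
    ∃ T : Finset E, A + B ⊆ ⋃ t ∈ T, (fun x => t + x) '' interior (A + B) ∧ T.card ≤ n := by
  borelize E
  obtain ⟨T, hT, hcard⟩ := all_cov_symm A hA hAc hAi o ho (A.extremePoints ℝ) extremePoints_subset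
    (ext_disj A (by omega)) z hz hz1 k (by rw [hd]; exact hk) n (by rw [hd]; exact hn)
  obtain ⟨T', hT'card, hT'⟩ := cov_sum hA hAc hAi hB hBc hBn T hT
  exact ⟨T', hT', hT'card.trans hcard⟩

/-- Polytopes: the sum of a body with `N ≥ 2ᵈ` extreme points and a compact convex set. -/
theorem fin_sum (A B : Set E) (hA : Convex ℝ A) (hAc : IsCompact A)
    (hAi : (interior A).Nonempty) (hB : Convex ℝ B) (hBc : IsCompact B) (hBn : B.Nonempty)
    (d : ℕ) (hd : finrank ℝ E = d) (hd1 : 1 ≤ d) (hf : (A.extremePoints ℝ).Finite) (N : ℕ)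
    (hN : (A.extremePoints ℝ).ncard ≤ N) (hN2 : 2 ^ d ≤ N) :
    ∃ T : Finset E, A + B ⊆ ⋃ t ∈ T, (fun x => t + x) '' interior (A + B) ∧
      (T.card : ℝ) ≤ 1 + 2 ^ d * (1 + log (N / 2 ^ d)) := by
  obtain ⟨z, hz, hz1, hzk⟩ := exists_z d N
  have h2d : (0 : ℝ) < 2 ^ d := by positivity
  have hp1 : (1 : ℝ) / 2 ^ d ≤ 1 := by
    rw [div_le_one h2d]
    exact one_le_pow₀ (by norm_num)
  have hN2' : (2 : ℝ) ^ d ≤ N := by exact_mod_cast hN2
  have hN0 : (0 : ℝ) < N := lt_of_lt_of_le h2d hN2'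
  obtain ⟨n, hn, hnle⟩ := exists_steps (p := 1 / 2 ^ d) (by positivity) hp1 N (log (N / 2 ^ d))
    (Real.log_nonneg (by rw [le_div_iff₀ h2d, one_mul]; exact hN2')) (by
      rw [exp_log (by positivity)]
      refine le_of_eq ?_
      ring)
  obtain ⟨T, hT, hcard⟩ := all_sum A B hA hAc hAi hB hBc hBn d hd hd1 z hz hz1 N
    (Or.inr ⟨hf, hN⟩) n (by rw [iter_congr (by positivity) hp1 N hzk]; exact hn)
  refine ⟨T, hT, ?_⟩
  have h1 : (T.card : ℝ) ≤ n := by exact_mod_cast hcard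
  refine (h1.trans hnle).trans (le_of_eq ?_)
  rw [div_div_eq_mul_div, div_one]
  ring

/-! ### Numbers for sums -/

theorem num_sum (A B : Set E) (hA : Convex ℝ A) (hAc : IsCompact A)
    (hAi : (interior A).Nonempty) (hB : Convex ℝ B) (hBc : IsCompact B) (hBn : B.Nonempty)
    (d a b n : ℕ) (ha : 0 < a) (hab : a < b) (hd1 : 1 ≤ d) (hd : finrank ℝ E = d)
    (hn : (nf ((2 * b - a) ^ d - (b - a) ^ d) ((2 * b - a) ^ d))^[n]
      (2 ^ d * ((2 * b + a) ^ d - (2 * b - a) ^ d) / a ^ d) = 0) :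
    ∃ T : Finset E, A + B ⊆ ⋃ t ∈ T, (fun x => t + x) '' interior (A + B) ∧ T.card ≤ n := by
  borelize E
  obtain ⟨T, hT, hcard⟩ := num_cov A hA hAc hAi (A.extremePoints ℝ) extremePoints_subset
    (ext_disj A (by omega)) d a b n ha hab hd hn
  obtain ⟨T', hT'card, hT'⟩ := cov_sum hA hAc hAi hB hBc hBn T hT
  exact ⟨T', hT', hT'card.trans hcard⟩

theorem num_sum_symm (A B : Set E) (hA : Convex ℝ A) (hAc : IsCompact A)
    (hAi : (interior A).Nonempty) (o : E) (ho : ∀ x ∈ A, (2 : ℝ) • o - x ∈ A)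
    (hB : Convex ℝ B) (hBc : IsCompact B) (hBn : B.Nonempty)
    (d a b n : ℕ) (ha : 0 < a) (hab : a < b) (hd1 : 1 ≤ d) (hd : finrank ℝ E = d)
    (hn : (nf ((2 * b - a) ^ d - (b - a) ^ d) ((2 * b - a) ^ d))^[n]
      (1 ^ d * ((2 * b + a) ^ d - (2 * b - a) ^ d) / a ^ d) = 0) :
    ∃ T : Finset E, A + B ⊆ ⋃ t ∈ T, (fun x => t + x) '' interior (A + B) ∧ T.card ≤ n := by
  borelize E
  obtain ⟨T, hT, hcard⟩ := num_cov_symm A hA hAc hAi o ho (A.extremePoints ℝ)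
    extremePoints_subset (ext_disj A (by omega)) d a b n ha hab hd hn
  obtain ⟨T', hT'card, hT'⟩ := cov_sum hA hAc hAi hB hBc hBn T hT
  exact ⟨T', hT', hT'card.trans hcard⟩

theorem v3 : (nf ((2 * 100 - 13) ^ 3 - (100 - 13) ^ 3) ((2 * 100 - 13) ^ 3))^[71]
    (2 ^ 3 * ((2 * 100 + 13) ^ 3 - (2 * 100 - 13) ^ 3) / 13 ^ 3) = 0 := by decide +kernel

theorem v4 : (nf ((2 * 1000 - 115) ^ 4 - (1000 - 115) ^ 4) ((2 * 1000 - 115) ^ 4))^[220]
    (2 ^ 4 * ((2 * 1000 + 115) ^ 4 - (2 * 1000 - 115) ^ 4) / 115 ^ 4) = 0 := by decide +kernel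

theorem v5 : (nf ((2 * 10 - 1) ^ 5 - (10 - 1) ^ 5) ((2 * 10 - 1) ^ 5))^[604]
    (2 ^ 5 * ((2 * 10 + 1) ^ 5 - (2 * 10 - 1) ^ 5) / 1 ^ 5) = 0 := by decide +kernel

theorem v6 : (nf ((2 * 25 - 2) ^ 6 - (25 - 2) ^ 6) ((2 * 25 - 2) ^ 6))^[1552]
    (2 ^ 6 * ((2 * 25 + 2) ^ 6 - (2 * 25 - 2) ^ 6) / 2 ^ 6) = 0 := by decide +kernel

theorem v7 : (nf ((2 * 250 - 17) ^ 7 - (250 - 17) ^ 7) ((2 * 250 - 17) ^ 7))^[3814]
    (2 ^ 7 * ((2 * 250 + 17) ^ 7 - (2 * 250 - 17) ^ 7) / 17 ^ 7) = 0 := by decide +kernel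

theorem v8 : (nf ((2 * 1000 - 59) ^ 8 - (1000 - 59) ^ 8) ((2 * 1000 - 59) ^ 8))^[9087]
    (2 ^ 8 * ((2 * 1000 + 59) ^ 8 - (2 * 1000 - 59) ^ 8) / 59 ^ 8) = 0 := by decide +kernel

theorem s3 : (nf ((2 * 1000 - 257) ^ 3 - (1000 - 257) ^ 3) ((2 * 1000 - 257) ^ 3))^[48]
    (1 ^ 3 * ((2 * 1000 + 257) ^ 3 - (2 * 1000 - 257) ^ 3) / 257 ^ 3) = 0 := by decide +kernel

theorem s4 : (nf ((2 * 1000 - 167) ^ 4 - (1000 - 167) ^ 4) ((2 * 1000 - 167) ^ 4))^[159]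
    (1 ^ 4 * ((2 * 1000 + 167) ^ 4 - (2 * 1000 - 167) ^ 4) / 167 ^ 4) = 0 := by decide +kernel

theorem s5 : (nf ((2 * 125 - 18) ^ 5 - (125 - 18) ^ 5) ((2 * 125 - 18) ^ 5))^[452]
    (1 ^ 5 * ((2 * 125 + 18) ^ 5 - (2 * 125 - 18) ^ 5) / 18 ^ 5) = 0 := by decide +kernel

theorem s6 : (nf ((2 * 1000 - 113) ^ 6 - (1000 - 113) ^ 6) ((2 * 1000 - 113) ^ 6))^[1190]
    (1 ^ 6 * ((2 * 1000 + 113) ^ 6 - (2 * 1000 - 113) ^ 6) / 113 ^ 6) = 0 := by decide +kernel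

theorem s7 : (nf ((2 * 125 - 12) ^ 7 - (125 - 12) ^ 7) ((2 * 125 - 12) ^ 7))^[2976]
    (1 ^ 7 * ((2 * 125 + 12) ^ 7 - (2 * 125 - 12) ^ 7) / 12 ^ 7) = 0 := by decide +kernel

theorem s8 : (nf ((2 * 10000 - 807) ^ 8 - (10000 - 807) ^ 8) ((2 * 10000 - 807) ^ 8))^[7188]
    (1 ^ 8 * ((2 * 10000 + 807) ^ 8 - (2 * 10000 - 807) ^ 8) / 807 ^ 8) = 0 := by decide +kernel

end Pool.Agent.K3h52.TP
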