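import Pool.Agent.K3h52.TP.Asym
import Pool.Agent.K3h76.UC.Ball

set_option autoImplicit false

/-!
Bodies in a ball, by means of a Gaussian weight.
-/

namespace Pool.Agent.K3h52.TP

open scoped RealInnerProductSpace Pointwise
open Module MeasureTheory Real

variable {E : Type*} [NormedAddCommGroup E] [InnerProductSpace ℝ E] [FiniteDimensional ℝ E]
  [MeasurableSpace E] [BorelSpace E]

theorem gauss_int (a : ℝ) (ha : 0 < a) (q : E) :
    Integrable (fun y : E => exp (-a * ‖y - q‖ ^ 2)) ∧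
    ∫ y : E, exp (-a * ‖y - q‖ ^ 2) = (π / a) ^ (finrank ℝ E / 2 : ℝ) := by
  have h1 := GaussianFourier.integral_rexp_neg_mul_sq_norm (V := E) ha
  have h2 : ∫ y : E, exp (-a * ‖y - q‖ ^ 2) = (π / a) ^ (finrank ℝ E / 2 : ℝ) := by
    rw [integral_sub_right_eq_self (fun y : E => exp (-a * ‖y‖ ^ 2)) q, h1]
  refine ⟨?_, h2⟩
  by_contra hcon
  have h3 := integral_undef hcon
  rw [h3] at h2
  have : 0 < (π / a) ^ (finrank ℝ E / 2 : ℝ) := Real.rpow_pos_of_pos (by positivity) _
  linarith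

/-- The data of the criterion for a Gaussian weight. -/
theorem gauss_data (A : Set E) (hAc : IsCompact A) (c g : E) (R ρ : ℝ) (hρ : 0 < ρ)
    (hAR : A ⊆ Metric.closedBall c R) (hg : ∫ u in A, u = (volume : Measure E).real A • g)
    (hm : R ^ 2 * (volume : Measure E).real A + ∫ u in A, ‖u - g‖ ^ 2 ≤
      ρ ^ 2 * (volume : Measure E).real A)
    (z : ℝ) (hz : 0 < z) (hz1 : z < 1) (d : ℕ) (hd : finrank ℝ E = d) (hd1 : 1 ≤ d) :
    MemLp (fun y : E => exp (-(d / (4 * ρ ^ 2)) * ‖y - (c + (1 - z) • g)‖ ^ 2)) 2 volume ∧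
    (∀ x ∈ A, (1 - z) ^ d * (volume : Measure E).real A * exp (-(d / 4)) ≤
      ∫ u in (1 - z) • A, exp (-(d / (4 * ρ ^ 2)) * ‖x + u - (c + (1 - z) • g)‖ ^ 2)) ∧
    ∫ y : E, exp (-(d / (4 * ρ ^ 2)) * ‖y - (c + (1 - z) • g)‖ ^ 2) ^ 2 =
      (2 * π * ρ ^ 2 / d) ^ (d / 2 : ℝ) := by
  have hd0 : (0 : ℝ) < d := by exact_mod_cast hd1
  have hAf : (volume : Measure E) A ≠ ⊤ := hAc.measure_lt_top.ne
  have hAm : MeasurableSet A := hAc.isClosed.measurableSet
  have hl : 0 < 1 - z := by linarith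
  set l := 1 - z with hldef
  set b : ℝ := d / (4 * ρ ^ 2) with hb
  have hb0 : 0 < b := by positivity
  set q : E := c + l • g with hq
  set v := (volume : Measure E).real A with hv
  have hsq : ∀ y : E, exp (-b * ‖y - q‖ ^ 2) ^ 2 = exp (-(2 * b) * ‖y - q‖ ^ 2) := by
    intro y
    rw [← Real.exp_nat_mul]
    congr 1
    push_cast
    ring
  obtain ⟨hi, hI⟩ := gauss_int (2 * b) (by positivity) q
  refine ⟨?_, ?_, ?_⟩
  · rw [memLp_two_iff_integrable_sq]
    · simp_rw [hsq]
      exact hi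
    · exact Continuous.aestronglyMeasurable (by fun_prop)
  · intro x hx
    have h1 : ∫ u in l • A, exp (-b * ‖x + u - q‖ ^ 2) =
        l ^ d * ∫ u in A, exp (-b * ‖x + l • u - q‖ ^ 2) := by
      have h2 := Measure.setIntegral_comp_smul_of_pos (volume : Measure E)
        (fun u => exp (-b * ‖x + u - q‖ ^ 2)) A hl
      rw [h2, hd, smul_eq_mul, ← mul_assoc, mul_inv_cancel₀ (by positivity), one_mul]
    rw [h1, mul_assoc]
    refine mul_le_mul_of_nonneg_left ?_ (by positivity)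
    -- the mean of the square
    have h3 : ∫ u in A, ‖x + l • u - q‖ ^ 2 ≤ ρ ^ 2 * v := by
      have hi1 : IntegrableOn (fun _ : E => ‖x - c‖ ^ 2) A := integrableOn_const hAf
      have hi2 : IntegrableOn (fun u : E => 2 * l * ⟪x - c, u - g⟫) A :=
        ContinuousOn.integrableOn_compact hAc (by fun_prop)
      have hi3 : IntegrableOn (fun u : E => l ^ 2 * ‖u - g‖ ^ 2) A :=
        ContinuousOn.integrableOn_compact hAc (by fun_prop)
      have h4 : ∀ u : E, ‖x + l • u - q‖ ^ 2 =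
          ‖x - c‖ ^ 2 + 2 * l * ⟪x - c, u - g⟫ + l ^ 2 * ‖u - g‖ ^ 2 := by
        intro u
        have e : x + l • u - q = (x - c) + l • (u - g) := by rw [hq, smul_sub]; abel
        rw [e, norm_add_sq_real, inner_smul_right, norm_smul, mul_pow, Real.norm_eq_abs, sq_abs]
        ring
      simp_rw [h4]
      have ea : ∫ u in A, (‖x - c‖ ^ 2 + 2 * l * ⟪x - c, u - g⟫ + l ^ 2 * ‖u - g‖ ^ 2) =
          (∫ u in A, (‖x - c‖ ^ 2 + 2 * l * ⟪x - c, u - g⟫)) + ∫ u in A, l ^ 2 * ‖u - g‖ ^ 2 :=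
        integral_add (hi1.add hi2) hi3
      have eb : ∫ u in A, (‖x - c‖ ^ 2 + 2 * l * ⟪x - c, u - g⟫) =
          (∫ _ in A, ‖x - c‖ ^ 2) + ∫ u in A, 2 * l * ⟪x - c, u - g⟫ :=
        integral_add hi1 hi2
      have h5 : ∫ u in A, 2 * l * ⟪x - c, u - g⟫ = 0 := by
        have hi4 : IntegrableOn (fun u : E => u) A :=
          ContinuousOn.integrableOn_compact hAc (by fun_prop)
        have hi5 : IntegrableOn (fun u : E => u - g) A :=
          ContinuousOn.integrableOn_compact hAc (by fun_prop)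
        rw [integral_const_mul, integral_inner hi5]
        rw [integral_sub hi4 (integrableOn_const hAf), hg, setIntegral_const, sub_self,
          inner_zero_right, mul_zero]
      rw [ea, eb, h5, setIntegral_const, integral_const_mul, smul_eq_mul, add_zero]
      have h7 : ‖x - c‖ ^ 2 ≤ R ^ 2 := by
        have h8 := hAR hx
        rw [Metric.mem_closedBall, dist_eq_norm] at h8
        exact pow_le_pow_left₀ (norm_nonneg _) h8 2
      have h9 : 0 ≤ ∫ u in A, ‖u - g‖ ^ 2 := integral_nonneg fun u => sq_nonneg _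
      have h10 : l ^ 2 ≤ 1 := pow_le_one₀ hl.le (by linarith)
      have hv0 : 0 ≤ v := measureReal_nonneg
      have h11 : l ^ 2 * ∫ u in A, ‖u - g‖ ^ 2 ≤ ∫ u in A, ‖u - g‖ ^ 2 :=
        mul_le_of_le_one_left h9 h10
      have h12 : v * ‖x - c‖ ^ 2 ≤ R ^ 2 * v := by
        rw [mul_comm]
        exact mul_le_mul_of_nonneg_right h7 hv0
      linarith
    have h13 : ∀ u : E, exp (-(d / 4)) * (1 + (d / 4 - b * ‖x + l • u - q‖ ^ 2)) ≤
        exp (-b * ‖x + l • u - q‖ ^ 2) := by
      intro u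
      have h14 := Real.add_one_le_exp (d / 4 - b * ‖x + l • u - q‖ ^ 2)
      calc exp (-(d / 4)) * (1 + (d / 4 - b * ‖x + l • u - q‖ ^ 2))
          ≤ exp (-(d / 4)) * exp (d / 4 - b * ‖x + l • u - q‖ ^ 2) := by
            refine mul_le_mul_of_nonneg_left ?_ (exp_pos _).le
            linarith
        _ = exp (-b * ‖x + l • u - q‖ ^ 2) := by
            rw [← exp_add]
            congr 1
            ring
    have hi5 : IntegrableOn (fun u : E => exp (-b * ‖x + l • u - q‖ ^ 2)) A :=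
      ContinuousOn.integrableOn_compact hAc (by fun_prop)
    have hi6 : IntegrableOn (fun u : E => ‖x + l • u - q‖ ^ 2) A :=
      ContinuousOn.integrableOn_compact hAc (by fun_prop)
    have hi7 : IntegrableOn (fun u : E =>
        exp (-(d / 4)) * (1 + (d / 4 - b * ‖x + l • u - q‖ ^ 2))) A :=
      ContinuousOn.integrableOn_compact hAc (by fun_prop)
    have h15 := setIntegral_mono hi7 hi5 h13
    refine le_trans ?_ h15
    have h16 : ∫ u in A, exp (-(d / 4)) * (1 + (d / 4 - b * ‖x + l • u - q‖ ^ 2)) =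
        exp (-(d / 4)) * (v * (1 + d / 4) - b * ∫ u in A, ‖x + l • u - q‖ ^ 2) := by
      rw [integral_const_mul]
      congr 1
      have e : ∀ u : E, 1 + (d / 4 - b * ‖x + l • u - q‖ ^ 2) =
          (1 + (d : ℝ) / 4) - b * ‖x + l • u - q‖ ^ 2 := fun u => by ring
      simp_rw [e]
      have hi8 : IntegrableOn (fun _ : E => 1 + (d : ℝ) / 4) A := integrableOn_const hAf
      have hi9 : IntegrableOn (fun u : E => b * ‖x + l • u - q‖ ^ 2) A := hi6.const_mul b
      rw [integral_sub hi8 hi9, setIntegral_const, integral_const_mul, smul_eq_mul]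
    rw [h16, mul_comm v]
    refine mul_le_mul_of_nonneg_left ?_ (exp_pos _).le
    have h17 := mul_le_mul_of_nonneg_left h3 hb0.le
    have h18 : b * (ρ ^ 2 * v) = d / 4 * v := by
      rw [hb]; field_simp
    rw [h18] at h17
    have e2 : v * (1 + (d : ℝ) / 4) = v + d / 4 * v := by ring
    linarith
  · simp_rw [hsq]
    rw [hI, hd]
    congr 1
    rw [hb]
    field_simp
    ring

end Pool.Agent.K3h52.TP
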