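import Pool.Agent.K3h52.TP.Sym

set_option autoImplicit false

/-!
Nets in the boundary of a convex body: the bodies of the packing lie in a shell.
-/

namespace Pool.Agent.K3h52.TP

open MeasureTheory Module
open scoped Pointwise ENNReal

variable {E : Type*} [NormedAddCommGroup E] [NormedSpace ℝ E] [FiniteDimensional ℝ E]
  [MeasurableSpace E] [BorelSpace E] (μ : Measure E) [μ.IsAddHaarMeasure]

omit [NormedSpace ℝ E] [FiniteDimensional ℝ E] [BorelSpace E] in
theorem real_pos' {A : Set E} (hAc : IsCompact A) (hAi : (interior A).Nonempty) :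
    0 < μ.real A := by
  refine ENNReal.toReal_pos ?_ hAc.measure_lt_top.ne
  intro h1
  have h3 := isOpen_interior.measure_pos μ hAi
  have h4 : μ (interior A) ≤ μ A := measure_mono interior_subset
  rw [h1] at h4
  exact absurd h3 (not_lt.mpr h4)

theorem real_interior {A : Set E} (hA : Convex ℝ A) (hAc : IsCompact A) :
    μ.real (interior A) = μ.real A := by
  have h1 : μ A ≤ μ (interior A) := by
    calc μ A ≤ μ (interior A ∪ frontier A) := by
          refine measure_mono ?_
          rw [← closure_eq_interior_union_frontier]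
          exact subset_closure
      _ ≤ μ (interior A) + μ (frontier A) := measure_union_le _ _
      _ = μ (interior A) := by rw [Convex.addHaar_frontier μ hA, add_zero]
  have h2 : μ (interior A) = μ A := le_antisymm (measure_mono interior_subset) h1
  rw [measureReal_def, h2]
  rfl

/-- Card bound for separated sets on the boundary. -/
theorem card_bound (A : Set E) (hA : Convex ℝ A) (hAc : IsCompact A)
    (X : Set E) (hXA : X ⊆ A) (hXi : Disjoint X (interior A))
    (c : E) (U : Set E) (hU : Convex ℝ U) (hUs : ∀ v ∈ U, -v ∈ U) (hUo : IsOpen U)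
    (hUA : ∀ v ∈ U, c + v ∈ A) (hU0 : U.Nonempty) (r : ℝ) (hr : 0 < r) (hr1 : r < 1)
    (F : Finset E) (hF : ∀ x ∈ F, x ∈ X)
    (hsep : ∀ s ∈ F, ∀ t ∈ F, s ≠ t → ∀ u ∈ U, s ≠ t + (2 * r) • u) :
    F.card * (r ^ finrank ℝ E * μ.real U) ≤
      ((1 + r) ^ finrank ℝ E - (1 - r) ^ finrank ℝ E) * μ.real A := by
  classical
  set d := finrank ℝ E with hd
  have h0U : (0 : E) ∈ U := by
    obtain ⟨v, hv⟩ := hU0
    have h1 := hU hv (hUs v hv) (show (0 : ℝ) ≤ 1 / 2 by norm_num)
      (show (0 : ℝ) ≤ 1 / 2 by norm_num) (by norm_num)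
    have e : (1 / 2 : ℝ) • v + (1 / 2 : ℝ) • (-v) = 0 := by rw [smul_neg, add_neg_cancel]
    rwa [e] at h1
  have hcA : c ∈ A := by simpa using hUA 0 h0U
  have hAm : MeasurableSet A := hAc.isClosed.measurableSet
  have hAf : μ A ≠ ⊤ := hAc.measure_lt_top.ne
  let T1 : Set E := AffineMap.homothety c (1 + r) '' A
  let T0 : Set E := AffineMap.homothety c (1 - r) '' interior A
  have hT1m : μ T1 = ENNReal.ofReal ((1 + r) ^ d) * μ A := by
    rw [Measure.addHaar_image_homothety, abs_of_nonneg (by positivity)]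
  have hT0m : μ T0 = ENNReal.ofReal ((1 - r) ^ d) * μ (interior A) := by
    rw [Measure.addHaar_image_homothety, abs_of_nonneg (pow_nonneg (by linarith) _)]
  have hT1f : μ T1 ≠ ⊤ := by rw [hT1m]; exact ENNReal.mul_ne_top ENNReal.ofReal_ne_top hAf
  have hT1r : μ.real T1 = (1 + r) ^ d * μ.real A := by
    rw [measureReal_def, hT1m, ENNReal.toReal_mul, ENNReal.toReal_ofReal (by positivity)]
    rfl
  have hT0r : μ.real T0 = (1 - r) ^ d * μ.real A := by
    rw [measureReal_def, hT0m, ENNReal.toReal_mul,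
      ENNReal.toReal_ofReal (pow_nonneg (by linarith) _), ← real_interior μ hA hAc]
    rfl
  have happ : ∀ k : ℝ, ∀ y : E, AffineMap.homothety c k y = c + k • (y - c) := by
    intro k y
    rw [AffineMap.homothety_apply, vsub_eq_sub, vadd_eq_add, add_comm]
  have hT01 : T0 ⊆ T1 := by
    rintro _ ⟨y, hy, rfl⟩
    have hyA := interior_subset hy
    refine ⟨((1 - r) / (1 + r)) • y + (1 - (1 - r) / (1 + r)) • c, ?_, ?_⟩
    · refine hA hyA hcA ?_ ?_ (by ring)
      · exact div_nonneg (by linarith) (by linarith)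
      · rw [sub_nonneg, div_le_one (by linarith)]
        linarith
    · rw [happ, happ]
      congr 1
      have e1 : ((1 - r) / (1 + r)) • y + (1 - (1 - r) / (1 + r)) • c - c =
          ((1 - r) / (1 + r)) • (y - c) := by
        rw [sub_smul, one_smul, smul_sub]
        abel
      rw [e1, smul_smul, mul_div_cancel₀ _ (by positivity : (1 + r) ≠ 0)]
  have hT0meas : MeasurableSet T0 := by
    have hop : IsOpen T0 := by
      have h1 : T0 = (fun z => c + (1 - r)⁻¹ • (z - c)) ⁻¹' interior A := by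
        ext z
        constructor
        · rintro ⟨y, hy, rfl⟩
          rw [Set.mem_preimage, happ, add_sub_cancel_left, smul_smul,
            inv_mul_cancel₀ (by linarith : (1 - r) ≠ 0), one_smul, add_sub_cancel]
          exact hy
        · intro hz
          refine ⟨_, hz, ?_⟩
          rw [happ, add_sub_cancel_left, smul_smul,
            mul_inv_cancel₀ (by linarith : (1 - r) ≠ 0), one_smul, add_sub_cancel]
      rw [h1]
      exact isOpen_interior.preimage (by fun_prop)
    exact hop.measurableSet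
  -- the small bodies
  let D : E → Set E := fun x => (fun v => -x + v) ⁻¹' (r • U)
  have hDmem : ∀ x z, z ∈ D x ↔ ∃ u ∈ U, z = x + r • u := by
    intro x z
    constructor
    · rintro ⟨u, hu, hz⟩
      refine ⟨u, hu, ?_⟩
      simp only at hz
      rw [hz]
      abel
    · rintro ⟨u, hu, rfl⟩
      exact ⟨u, hu, by simp only; abel⟩
  have hDo : ∀ x, IsOpen (D x) := by
    intro x
    exact (hUo.smul₀ hr.ne').preimage (by fun_prop)
  have hDr : ∀ x, μ (D x) = ENNReal.ofReal (r ^ d) * μ U := by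
    intro x
    rw [measure_preimage_add, Measure.addHaar_smul, abs_of_nonneg (by positivity)]
  have hUf : μ U ≠ ⊤ := by
    have h1 : μ U ≤ μ A := by
      rw [← measure_preimage_add μ c A]
      exact measure_mono fun v hv => hUA v hv
    exact ne_top_of_le_ne_top hAf h1
  have hDf : ∀ x, μ (D x) ≠ ⊤ := by
    intro x
    rw [hDr]
    exact ENNReal.mul_ne_top ENNReal.ofReal_ne_top hUf
  have hdisj : Set.PairwiseDisjoint (F : Set E) D := by
    intro x hx y hy hxy
    rw [Function.onFun, Set.disjoint_left]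
    intro z hz hz'
    obtain ⟨u, hu, h1⟩ := (hDmem x z).1 hz
    obtain ⟨v, hv, h2⟩ := (hDmem y z).1 hz'
    have h3 : (1 / 2 : ℝ) • v + (1 / 2 : ℝ) • (-u) ∈ U :=
      hU hv (hUs u hu) (by norm_num) (by norm_num) (by norm_num)
    refine hsep x hx y hy hxy _ h3 ?_
    rw [smul_add, smul_smul, smul_smul, smul_neg]
    have e1 : 2 * r * (1 / 2) = r := by ring
    rw [e1]
    have h4 : x + r • u = y + r • v := by rw [← h1, ← h2]
    rw [← add_assoc, ← h4]
    abel
  have hsub : (⋃ x ∈ F, D x) ⊆ T1 \ T0 := by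
    intro z hz
    rw [Set.mem_iUnion₂] at hz
    obtain ⟨x, hx, hz⟩ := hz
    obtain ⟨u, hu, rfl⟩ := (hDmem x z).1 hz
    have hxX := hF x hx
    have hxA := hXA hxX
    constructor
    · refine ⟨(1 / (1 + r)) • x + (r / (1 + r)) • (c + u), ?_, ?_⟩
      · exact hA hxA (hUA u hu) (by positivity) (by positivity) (by field_simp)
      · rw [happ]
        have e1 : r / (1 + r) = 1 - 1 / (1 + r) := by field_simp; ring
        have e2 : (1 / (1 + r)) • x + (r / (1 + r)) • (c + u) - c =
            (1 / (1 + r)) • (x - c) + (r / (1 + r)) • u := by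
          rw [e1]
          module
        rw [e2, smul_add, smul_smul, smul_smul, mul_one_div_cancel (by positivity : (1 + r) ≠ 0),
          mul_div_cancel₀ _ (by positivity : (1 + r) ≠ 0), one_smul]
        abel
    · rintro ⟨a, ha, hax⟩
      rw [happ] at hax
      have hx' : x = (1 - r) • a + r • (c + -u) := by
        rw [smul_add, smul_neg]
        have : x = c + (1 - r) • (a - c) - r • u := by rw [hax]; abel
        rw [this, sub_smul, one_smul, sub_smul, one_smul, smul_sub]
        abel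
      have h5 : x ∈ interior A := by
        rw [hx']
        exact hA.combo_interior_self_mem_interior ha (hUA _ (hUs u hu)) (by linarith) hr.le (by ring)
      exact Set.disjoint_left.1 hXi hxX h5
  have hT1T0 : μ.real (T1 \ T0) = ((1 + r) ^ d - (1 - r) ^ d) * μ.real A := by
    rw [measureReal_sdiff hT01 hT0meas hT1f, hT1r, hT0r]
    ring
  rw [← hT1T0]
  have hDreal : ∀ x, μ.real (D x) = r ^ d * μ.real U := by
    intro x
    rw [measureReal_def, hDr, ENNReal.toReal_mul, ENNReal.toReal_ofReal (by positivity)]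
    rfl
  have h6 : μ.real (⋃ x ∈ F, D x) = F.card * (r ^ d * μ.real U) := by
    rw [measureReal_biUnion_finset hdisj (fun x _ => (hDo x).measurableSet) (fun x _ => hDf x)]
    simp_rw [hDreal]
    rw [Finset.sum_const, nsmul_eq_mul]
  rw [← h6]
  exact measureReal_mono hsub (ne_top_of_le_ne_top hT1f (measure_mono Set.sdiff_subset))

/-- A net on the boundary. -/
theorem exists_net_bd (A : Set E) (hA : Convex ℝ A) (hAc : IsCompact A)
    (X : Set E) (hXA : X ⊆ A) (hXi : Disjoint X (interior A))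
    (c : E) (U : Set E) (hU : Convex ℝ U) (hUs : ∀ v ∈ U, -v ∈ U) (hUo : IsOpen U)
    (hUA : ∀ v ∈ U, c + v ∈ A) (hU0 : U.Nonempty) (r : ℝ) (hr : 0 < r) (hr1 : r < 1) :
    ∃ F : Finset E, (∀ x ∈ F, x ∈ X) ∧ (∀ y ∈ X, ∃ x ∈ F, ∃ u ∈ U, y = x + (2 * r) • u) ∧
      F.card * (r ^ finrank ℝ E * μ.real U) ≤
        ((1 + r) ^ finrank ℝ E - (1 - r) ^ finrank ℝ E) * μ.real A := by
  classical
  let P : Finset E → Prop := fun F => (∀ s ∈ F, s ∈ X) ∧
    (∀ s ∈ F, ∀ t ∈ F, s ≠ t → ∀ u ∈ U, s ≠ t + (2 * r) • u)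
  have hb : ∀ F, P F → F.card * (r ^ finrank ℝ E * μ.real U) ≤
        ((1 + r) ^ finrank ℝ E - (1 - r) ^ finrank ℝ E) * μ.real A := fun F hF =>
    card_bound μ A hA hAc X hXA hXi c U hU hUs hUo hUA hU0 r hr hr1 F hF.1 hF.2
  have hAf : μ A ≠ ⊤ := hAc.measure_lt_top.ne
  have hUf : μ U ≠ ⊤ := by
    have h1 : μ U ≤ μ A := by
      rw [← measure_preimage_add μ c A]
      exact measure_mono fun v hv => hUA v hv
    exact ne_top_of_le_ne_top hAf h1
  have hUr : 0 < μ.real U := ENNReal.toReal_pos (hUo.measure_pos μ hU0).ne' hUf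
  set R : ℝ := ((1 + r) ^ finrank ℝ E - (1 - r) ^ finrank ℝ E) * μ.real A /
    (r ^ finrank ℝ E * μ.real U) with hR
  have hRc : ∀ F, P F → (F.card : ℝ) ≤ R := by
    intro F hF
    rw [hR, le_div_iff₀ (by positivity)]
    exact hb F hF
  let N : Set ℕ := {n | ∃ F, P F ∧ F.card = n}
  have hNne : N.Nonempty := ⟨0, ∅, ⟨by simp, by simp⟩, rfl⟩
  have hNb : BddAbove N := by
    refine ⟨⌊R⌋₊, ?_⟩
    rintro n ⟨F, hF, rfl⟩
    exact Nat.le_floor (hRc F hF)
  obtain ⟨F, hF, hcard⟩ := Nat.sSup_mem hNne hNb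
  refine ⟨F, hF.1, ?_, hb F hF⟩
  intro x hx
  by_contra hcon
  push Not at hcon
  have h0U : (0 : E) ∈ U := by
    obtain ⟨v, hv⟩ := hU0
    have h1 := hU hv (hUs v hv) (show (0 : ℝ) ≤ 1 / 2 by norm_num)
      (show (0 : ℝ) ≤ 1 / 2 by norm_num) (by norm_num)
    have e : (1 / 2 : ℝ) • v + (1 / 2 : ℝ) • (-v) = 0 := by rw [smul_neg, add_neg_cancel]
    rwa [e] at h1
  have hxF : x ∉ F := by
    intro h
    have := hcon x h 0 h0U
    simp at this
  have hP : P (insert x F) := by
    constructor
    · intro s hs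
      rcases Finset.mem_insert.mp hs with rfl | hs
      · exact hx
      · exact hF.1 s hs
    · intro s hs t ht hne u hu
      rcases Finset.mem_insert.mp hs with h1 | hs <;> rcases Finset.mem_insert.mp ht with h2 | ht
      · exact absurd (h1.trans h2.symm) hne
      · rw [h1]; exact hcon t ht u hu
      · rw [h2]
        intro h
        refine hcon s hs (-u) (hUs u hu) ?_
        rw [h, smul_neg]
        abel
      · exact hF.2 s hs t ht hne u hu
  have hle : (insert x F).card ≤ sSup N := le_csSup hNb ⟨_, hP, rfl⟩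
  rw [Finset.card_insert_of_notMem hxF] at hle
  omega

end Pool.Agent.K3h52.TP
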