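import Pool.Agent.H2R2.Cov2

set_option autoImplicit false

/-!
A convex body has a large intersection with one of its reflections.
-/

namespace Pool.Agent.K3h52.TP

open MeasureTheory Module
open scoped Pointwise ENNReal

variable {E : Type*} [NormedAddCommGroup E] [NormedSpace ℝ E] [FiniteDimensional ℝ E]
  [MeasurableSpace E] [BorelSpace E] (μ : Measure E) [μ.IsAddHaarMeasure]

theorem conv_sq (A : Set E) (hA : MeasurableSet A) :
    ∫⁻ c, μ (A ∩ {x | c - x ∈ A}) ∂μ = μ A * μ A := by
  have h1 : ∀ c, μ (A ∩ {x | c - x ∈ A}) =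
      ∫⁻ x, A.indicator (fun _ => (1 : ℝ≥0∞)) x * A.indicator (fun _ => (1 : ℝ≥0∞)) (c - x) ∂μ := by
    intro c
    have hm : MeasurableSet (A ∩ {x | c - x ∈ A}) :=
      hA.inter ((measurable_const.sub measurable_id) hA)
    rw [← lintegral_indicator_one hm]
    congr 1
    ext x
    by_cases h : x ∈ A
    · by_cases h' : c - x ∈ A
      · rw [Set.indicator_of_mem (show x ∈ A ∩ {x | c - x ∈ A} from ⟨h, h'⟩),
          Set.indicator_of_mem h, Set.indicator_of_mem h']
        simp
      · rw [Set.indicator_of_notMem (fun hh => h' hh.2), Set.indicator_of_notMem h', mul_zero]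
    · rw [Set.indicator_of_notMem (fun hh => h hh.1), Set.indicator_of_notMem h, zero_mul]
  simp_rw [h1]
  have hind : Measurable (A.indicator (fun _ => (1 : ℝ≥0∞))) := measurable_const.indicator hA
  rw [lintegral_lintegral_swap]
  · have h2 : ∀ x, ∫⁻ c, A.indicator (fun _ => (1 : ℝ≥0∞)) x *
        A.indicator (fun _ => (1 : ℝ≥0∞)) (c - x) ∂μ =
        A.indicator (fun _ => (1 : ℝ≥0∞)) x * μ A := by
      intro x
      have h3 : Measurable (fun c => A.indicator (fun _ => (1 : ℝ≥0∞)) (c - x)) :=
        hind.comp (measurable_id.sub_const x)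
      rw [lintegral_const_mul _ h3,
        lintegral_sub_right_eq_self (fun c => A.indicator (fun _ => (1 : ℝ≥0∞)) c) x]
      congr 1
      exact lintegral_indicator_one hA
    simp_rw [h2]
    rw [lintegral_mul_const _ hind]
    congr 1
    exact lintegral_indicator_one hA
  · refine Measurable.aemeasurable ?_
    refine Measurable.mul ?_ ?_
    · exact hind.comp measurable_snd
    · exact hind.comp (measurable_fst.sub measurable_snd)

/-- There is a point `c` such that the part of `A` which is symmetric about `c` has volume at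
least `2⁻ᵈ` times the volume of `A`. -/
theorem exists_sym (A : Set E) (hA : Convex ℝ A) (hAc : IsCompact A) (hAi : (interior A).Nonempty) :
    ∃ c : E, μ.real A ≤ 2 ^ finrank ℝ E * μ.real (A ∩ {x | (2 : ℝ) • c - x ∈ A}) := by
  have hAm : MeasurableSet A := hAc.isClosed.measurableSet
  have hμ0 : μ A ≠ 0 := fun h => by
    have := isOpen_interior.measure_pos μ hAi
    have h2 : μ (interior A) ≤ μ A := measure_mono interior_subset
    rw [h] at h2
    exact absurd this (not_lt.mpr h2)
  have hμf : μ A ≠ ⊤ := hAc.measure_lt_top.ne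
  have h2A : μ ((2 : ℝ) • A) = 2 ^ finrank ℝ E * μ A := by
    rw [Measure.addHaar_smul, abs_of_nonneg (by positivity), ENNReal.ofReal_pow (by norm_num)]
    norm_num
  have h2m : MeasurableSet ((2 : ℝ) • A) := (hAc.smul 2).isClosed.measurableSet
  have hsupp : ∫⁻ c in (2 : ℝ) • A, μ (A ∩ {x | c - x ∈ A}) ∂μ = μ A * μ A := by
    rw [← conv_sq μ A hAm, ← lintegral_indicator h2m]
    congr 1
    ext c
    by_cases hc : c ∈ (2 : ℝ) • A
    · rw [Set.indicator_of_mem hc]
    · rw [Set.indicator_of_notMem hc]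
      have : A ∩ {x | c - x ∈ A} = ∅ := by
        ext x
        simp only [Set.mem_inter_iff, Set.mem_ofPred_eq, Set.mem_empty_iff_false, iff_false,
          not_and]
        intro hx hcx
        apply hc
        have h3 := hA hx hcx (show (0 : ℝ) ≤ 1 / 2 by norm_num) (show (0 : ℝ) ≤ 1 / 2 by norm_num)
          (by norm_num)
        refine ⟨_, h3, ?_⟩
        simp only [smul_add, smul_smul]
        norm_num
      rw [this, measure_empty]
  obtain ⟨c, -, hc⟩ := exists_setLAverage_le (μ := μ) (s := (2 : ℝ) • A)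
    (f := fun c => μ (A ∩ {x | c - x ∈ A})) (by
      rw [h2A]
      exact mul_ne_zero (by positivity) hμ0) h2m.nullMeasurableSet (by
      rw [hsupp]
      exact ENNReal.mul_ne_top hμf hμf)
  rw [setLAverage_eq, hsupp, h2A] at hc
  refine ⟨(1 / 2 : ℝ) • c, ?_⟩
  have e1 : (2 : ℝ) • (1 / 2 : ℝ) • c = c := by rw [smul_smul]; norm_num
  rw [e1]
  have hf : μ (A ∩ {x | c - x ∈ A}) ≠ ⊤ := ne_top_of_le_ne_top hμf (measure_mono Set.inter_subset_left)
  have h4 : μ A ≤ 2 ^ finrank ℝ E * μ (A ∩ {x | c - x ∈ A}) := by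
    have h5 : μ A * μ A ≤ 2 ^ finrank ℝ E * μ A * μ (A ∩ {x | c - x ∈ A}) := by
      rw [ENNReal.div_le_iff_le_mul (Or.inl (mul_ne_zero (by positivity) hμ0))
        (Or.inl (ENNReal.mul_ne_top (by finiteness) hμf))] at hc
      rw [mul_comm (2 ^ finrank ℝ E * μ A)]
      exact hc
    rw [mul_right_comm] at h5
    exact (ENNReal.mul_le_mul_iff_left hμ0 hμf).1 h5
  have h6 := ENNReal.toReal_mono (ENNReal.mul_ne_top (by finiteness) hf) h4
  rw [ENNReal.toReal_mul, ENNReal.toReal_pow, ENNReal.toReal_ofNat] at h6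
  exact h6

end Pool.Agent.K3h52.TP
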